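import Pool.Agent.Helper72_ACS.Law

/-!
# QDA, row TRQ: from the torus to the lattice, in `ℓ²`
-/

set_option autoImplicit false

open MeasureTheory ProbabilityTheory Function Filter

open scoped ENNReal BigOperators InnerProductSpace Topology NNReal Matrix

noncomputable section

namespace Pool.Agent.QDA.H34

open Pool.Agent.Anderson hiding box mem_box card_box
open Pool.Agent.Loc Pool.Agent.Mob Pool.Agent.Helper54.Bal
  Pool.Agent.Helper96.EXP Pool.Agent.BED
open Pool.Agent.LE.MN Pool.Agent.LE.CL Pool.Agent.LE.IR Pool.Agent.LE.QD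
open Pool.Agent.LE.QX.H90 Pool.Agent.ANE Pool.Agent.ANE.H72

theorem main2 {d : ℕ} (hCTH : CthStmt) (M : ℕ) [NeZero M] (V : Site d → ℝ) (E η α : ℝ)
    (hη : 0 < η) (hα : 0 ≤ α) (h2 : 2 * d * (Real.exp α - 1) ≤ η / 2) (L : ℕ) (hL : 1 ≤ L)
    (hM : 4 * L + 3 ≤ M) :
    ∑ x : Tor d M, ‖(ct L (rep x) : ℂ) * G V (zz η E) (del 0) (rep x) -
      rs (fun x : Tor d M => V (rep x)) ⟨E, η⟩ x 0‖ ^ 2 ≤
      (4 * d / η ^ 2 * Real.exp (-(α * (L - 1 : ℕ)))) ^ 2 := by
  classical
  have hL0 : (1 : ℝ) ≤ L := by exact_mod_cast hL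
  set z : ℂ := zz η E with hzd
  have hzi : z.im = η := zz_im η E
  have hz0 : z.im ≠ 0 := by rw [hzi]; exact hη.ne'
  rw [← zz_eq, ← hzd]
  obtain ⟨u, hu⟩ : ∃ u : Site d → ℂ, u = fun y => G V z (del 0) y := ⟨_, rfl⟩
  obtain ⟨W, hW⟩ : ∃ W : Tor d M → ℝ, W = fun x => V (rep x) := ⟨_, rfl⟩
  obtain ⟨v, hv⟩ : ∃ v : Tor d M → ℂ, v = fun x => (ct L (rep x) : ℂ) * u (rep x) := ⟨_, rfl⟩
  have hvx : ∀ x, v x = (ct L (rep x) : ℂ) * u (rep x) := fun x => by rw [hv]
  have hWx : ∀ x, W x = V (rep x) := fun x => by rw [hW]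
  have heq : ∀ y, ∑ i : Fin d, (u (y + Pi.single i 1) + u (y - Pi.single i 1)) +
      ((V y : ℂ) - z) * u y = if y = 0 then 1 else 0 := by
    intro y
    have h := G_eq (V := V) hz0 (del (0 : Site d)) y
    rw [del_apply] at h
    rw [hu]
    exact h
  obtain ⟨r, hr⟩ : ∃ r : Tor d M → ℂ, r = hz W z *ᵥ v - Pi.single 0 1 := ⟨_, rfl⟩
  obtain ⟨A, hA⟩ : ∃ A : Finset (Site d), A = (box 0 (2 * L)).filter fun y => L ≤ sd 0 y :=
    ⟨_, rfl⟩
  obtain ⟨F, hF⟩ : ∃ F : Site d → ℝ, F = fun y => 2 * d / (L : ℝ) ^ 2 *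
        ∑ i : Fin d, (‖u (y + Pi.single i 1)‖ ^ 2 + ‖u (y - Pi.single i 1)‖ ^ 2) := ⟨_, rfl⟩
  have hF0 : ∀ y, 0 ≤ F y := by
    intro y
    rw [hF]
    positivity
  have hpt : ∀ x, ‖r x‖ ^ 2 ≤ if rep x ∈ A then F (rep x) else 0 := by
    intro x
    have hrx : r x = (hz W z *ᵥ v) x - if rep x = 0 then 1 else 0 := by
      rw [hr, Pi.sub_apply, Pi.single_apply]
      congr 1
      have : (x = 0) ↔ (rep x = 0) := by
        constructor
        · rintro rfl
          exact rep_zero'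
        · intro h
          exact rep_inj (by rw [h, rep_zero'])
      simp only [this]
    by_cases h : sd 0 (rep x) ≤ 2 * L
    · have e1 : ∀ i, rep (x + ev i) = rep x + Pi.single i 1 := rep_add (R := 2 * L) (by omega) h
      have e2 : ∀ i, rep (x - ev i) = rep x - Pi.single i 1 := rep_sub (R := 2 * L) (by omega) h
      obtain ⟨y, hy⟩ : ∃ y, y = rep x := ⟨_, rfl⟩
      have e3 : r x = Pool.Agent.ANE.H72.cm L u y := by
        rw [hrx, hz_mulVec, hvx x, hWx x, ← hy]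
        have e4 : ∀ i, v (x + ev i) + v (x - ev i) =
            (ct L y : ℂ) * (u (y + Pi.single i 1) + u (y - Pi.single i 1)) +
            (((ct L (y + Pi.single i 1) - ct L y : ℝ) : ℂ) * u (y + Pi.single i 1) +
            ((ct L (y - Pi.single i 1) - ct L y : ℝ) : ℂ) * u (y - Pi.single i 1)) := by
          intro i
          rw [hvx, hvx, e1, e2, ← hy]
          push_cast
          ring
        rw [Finset.sum_congr rfl fun i _ => e4 i, Finset.sum_add_distrib, ← Finset.mul_sum]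
        have e5 := heq y
        have e6 : (ct L y : ℂ) * (if y = 0 then (1 : ℂ) else 0) = if y = 0 then 1 else 0 := by
          split_ifs with h0
          · rw [h0, ct_one hL (by rw [show sd (0 : Site d) 0 = 0 by
              rw [← Nat.le_zero, sd_le_iff]; simp]; omega)]
            simp
          · simp
        unfold Pool.Agent.ANE.H72.cm
        rw [← e6, ← e5]
        ring
      rw [e3]
      by_cases h3 : L ≤ sd 0 y
      · rw [if_pos (by rw [hA, Finset.mem_filter, mem_box, ← hy]; exact ⟨by rw [hy]; exact h, h3⟩),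
          hF, ← hy]
        exact comm_bound hL u y
      · rw [cm_zero hL u (not_le.1 h3)]
        split_ifs
        · simpa using hF0 _
        · simp
    · have z0 : v x = 0 := by
        rw [hvx, ct_zero hL (by omega)]
        simp
      have z1 : ∀ x' : Tor d M, (∃ i, x = x' + ev i ∨ x = x' - ev i) → v x' = 0 := by
        rintro x' ⟨i, hi⟩
        rw [hvx]
        by_cases h2 : 2 * L ≤ sd 0 (rep x')
        · rw [ct_zero hL h2]
          simp
        · exfalso
          rw [not_le] at h2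
          have h3 : sd 0 (rep x) ≤ 2 * L := by
            rcases hi with hi | hi
            · rw [hi, rep_add (R := 2 * L) (by omega) (by omega)]
              have h4 := sd_triangle 0 (rep x') (rep x' + Pi.single i 1)
              have h5 := sd_add (rep x') i
              omega
            · rw [hi, rep_sub (R := 2 * L) (by omega) (by omega)]
              have h4 := sd_triangle 0 (rep x') (rep x' - Pi.single i 1)
              have h5 := sd_sub (rep x') i
              omega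
          omega
      have z2 : ∑ i : Fin d, (v (x + ev i) + v (x - ev i)) = 0 := by
        refine Finset.sum_eq_zero fun i _ => ?_
        rw [z1 (x + ev i) ⟨i, Or.inr (by abel)⟩, z1 (x - ev i) ⟨i, Or.inl (by abel)⟩, add_zero]
      have z3 : rep x ≠ 0 := by
        intro h0
        apply h
        rw [h0, show sd (0 : Site d) 0 = 0 by rw [← Nat.le_zero, sd_le_iff]; simp]
        omega
      rw [hrx, hz_mulVec, z0, z2, if_neg z3]
      split_ifs
      · simpa using hF0 _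
      · simp
  obtain ⟨B, hB⟩ : ∃ B : Finset (Site d), B = (box 0 (2 * L + 1)).filter fun y => L - 1 ≤ sd 0 y :=
    ⟨_, rfl⟩
  have hfar : ∑ y ∈ B, ‖u y‖ ^ 2 ≤ Real.exp (-(2 * α * (L - 1 : ℕ))) * (4 / η ^ 2) := by
    have h := far hCTH V E η α hη hα h2 (L - 1) B (by
      intro y hy
      rw [hB, Finset.mem_filter] at hy
      exact hy.2)
    rw [hu]
    exact h
  obtain ⟨S, hS⟩ : ∃ S : ℝ, S = Real.exp (-(2 * α * (L - 1 : ℕ))) * (4 / η ^ 2) := ⟨_, rfl⟩
  have hS0 : 0 ≤ S := by rw [hS]; positivity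
  have hn2 : n2 r ≤ 4 * (d : ℝ) ^ 2 * S := by
    unfold n2
    refine (Finset.sum_le_sum fun x _ => hpt x).trans ?_
    refine (sum_rep F hF0 _).trans ?_
    rw [hF, ← Finset.mul_sum, Finset.sum_comm]
    have h1 : ∀ i : Fin d, ∑ y ∈ A, (‖u (y + Pi.single i 1)‖ ^ 2 +
        ‖u (y - Pi.single i 1)‖ ^ 2) ≤ 2 * S := by
      intro i
      rw [Finset.sum_add_distrib]
      have h2 := sum_shift (fun y => ‖u y‖ ^ 2) (fun y => by positivity) (A := A)
        (B := B) (Pi.single i 1 : Site d) (by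
          intro y hy
          rw [hA, Finset.mem_filter, mem_box] at hy
          rw [hB, Finset.mem_filter, mem_box]
          have h4 := sd_triangle 0 y (y + Pi.single i 1)
          have h5 := sd_add y i
          have h6 := sd_triangle 0 (y + Pi.single i 1) y
          rw [sd_comm (y + Pi.single i 1) y] at h6
          omega)
      have h3 := sum_shift (fun y => ‖u y‖ ^ 2) (fun y => by positivity) (A := A)
        (B := B) (-Pi.single i 1 : Site d) (by
          intro y hy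
          rw [hA, Finset.mem_filter, mem_box] at hy
          rw [hB, Finset.mem_filter, mem_box]
          have h4 := sd_triangle 0 y (y - Pi.single i 1)
          have h5 := sd_sub y i
          have h6 := sd_triangle 0 (y - Pi.single i 1) y
          rw [sd_comm (y - Pi.single i 1) y] at h6
          rw [← sub_eq_add_neg]
          omega)
      simp only [← sub_eq_add_neg] at h3
      rw [← hS] at hfar
      linarith
    have h5 : ∑ i : Fin d, ∑ y ∈ A, (‖u (y + Pi.single i 1)‖ ^ 2 +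
        ‖u (y - Pi.single i 1)‖ ^ 2) ≤ 2 * d * S := by
      calc _ ≤ ∑ _i : Fin d, 2 * S := Finset.sum_le_sum fun i _ => h1 i
        _ = 2 * d * S := by
            rw [Finset.sum_const, Finset.card_univ, Fintype.card_fin, nsmul_eq_mul]
            ring
    have h6 : 2 * (d : ℝ) / (L : ℝ) ^ 2 ≤ 2 * d := by
      rw [div_le_iff₀ (by positivity)]
      have : (1 : ℝ) ≤ (L : ℝ) ^ 2 := by nlinarith
      have h7 : (0 : ℝ) ≤ 2 * d := by positivity
      nlinarith
    calc _ ≤ 2 * (d : ℝ) * (2 * d * S) :=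
          mul_le_mul h6 h5 (Finset.sum_nonneg fun i _ => Finset.sum_nonneg fun y _ => by positivity)
            (by positivity)
      _ = _ := by ring
  -- the solution
  have hsol : v = rs W z *ᵥ (Pi.single 0 1) + rs W z *ᵥ r := by
    have h1 : rs W z *ᵥ (hz W z *ᵥ v) = v := by
      rw [Matrix.mulVec_mulVec, Pool.Agent.LE.QD.H76.rs_mul W hz0, Matrix.one_mulVec]
    rw [← Matrix.mulVec_add, hr, add_sub_cancel, h1]
  have hdiff : ∀ x, (ct L (rep x) : ℂ) * G V z (del 0) (rep x) - rs W z x 0 =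
      (rs W z *ᵥ r) x := by
    intro x
    have h1 := congrFun hsol x
    have h3 : (rs W z *ᵥ (Pi.single 0 1)) x = rs W z x 0 := by
      rw [Matrix.mulVec_single_one]
      rfl
    rw [Pi.add_apply, h3, hvx, hu] at h1
    rw [h1]
    ring
  have hb1 : ∑ x, ‖(rs W z *ᵥ r) x‖ ^ 2 ≤ n2 r / η ^ 2 := by
    have h1 := Pool.Agent.LE.QD.H76.rs_bd W hz0 r
    rw [hzi] at h1
    exact h1
  rw [← hW]
  rw [Finset.sum_congr rfl fun x _ => by rw [hdiff x]]
  refine hb1.trans ?_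
  have h3 : Real.exp (-(2 * α * (L - 1 : ℕ))) = Real.exp (-(α * (L - 1 : ℕ))) ^ 2 := by
    rw [← Real.exp_nat_mul]
    congr 1
    push_cast
    ring
  rw [div_le_iff₀ (by positivity)]
  refine hn2.trans (le_of_eq ?_)
  rw [hS, h3]
  field_simp

/-- the two resolvents are close in `ℓ²` -/
theorem l2 (d : ℕ) : ∃ C : ℝ, 1 ≤ C ∧ ∀ (M : ℕ) [NeZero M] (V : Site d → ℝ) (E η : ℝ), 0 < η →
    η ≤ 1 / (24 * C ^ 5) → 1 ≤ η ^ 2 * M → ∃ L : ℕ, 1 ≤ L ∧ 4 * L + 3 ≤ M ∧
      ∑ x : Tor d M, ‖(ct L (rep x) : ℂ) * G V (zz η E) (del 0) (rep x) -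
        rs (fun x : Tor d M => V (rep x)) ⟨E, η⟩ x 0‖ ^ 2 ≤ η ^ 2 ∧
      ∀ B : Finset (Site d), (∀ y ∈ B, L ≤ sd 0 y) →
        ∑ y ∈ B, ‖G V (zz η E) (del 0) y‖ ^ 2 ≤ η ^ 2 := by
  have hd0 : (0 : ℝ) ≤ d := Nat.cast_nonneg d
  obtain ⟨C, hC⟩ : ∃ C : ℝ, C = 32 * (d + 1) := ⟨_, rfl⟩
  have hC0 : 32 ≤ C := by rw [hC]; linarith
  refine ⟨C, by linarith, ?_⟩
  intro M _ V E η hη hη4 hηM
  have hC5 : (1 : ℝ) ≤ C ^ 5 := one_le_pow₀ (by linarith)
  have hη24 : η ≤ 1 / 24 := by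
    refine hη4.trans ?_
    exact one_div_le_one_div_of_le (by norm_num) (by linarith)
  have hM : 12 ≤ M := by
    have h1 : (12 : ℝ) ≤ M := by
      by_contra h
      rw [not_le] at h
      have h2 : η ^ 2 ≤ (1 / 24) ^ 2 := by gcongr
      have h3 : (0 : ℝ) ≤ M := Nat.cast_nonneg M
      nlinarith
    exact_mod_cast h1
  have herr := Pool.Agent.ANE.H90.err_le (by linarith : (1 : ℝ) ≤ C) hη hη4 hηM
  obtain ⟨α, hα⟩ : ∃ α : ℝ, α = η / (8 * (d + 1)) := ⟨_, rfl⟩
  have hα0 : 0 ≤ α := by rw [hα]; positivity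
  have hα1 : α ≤ 1 / 8 := by
    rw [hα, div_le_iff₀ (by positivity)]
    linarith
  have hαη : α * (8 * (d + 1)) = η := by
    rw [hα]
    field_simp
  have h2 : 2 * d * (Real.exp α - 1) ≤ η / 2 := by
    have h3 := expo hα0 (by linarith)
    have h4 : 2 * d * (Real.exp α - 1) ≤ 2 * d * (2 * α) := by gcongr
    nlinarith
  obtain ⟨L, hL⟩ : ∃ L : ℕ, L = (M - 3) / 4 := ⟨_, rfl⟩
  have h6 : (M : ℝ) ≤ 4 * ((L - 1 : ℕ) : ℝ) + 10 := by
    have : M ≤ 4 * (L - 1) + 10 := by omega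
    exact_mod_cast this
  have h7 : -(α * ((L - 1 : ℕ) : ℝ)) ≤ 1 / 2 + -(η * M / C) := by
    have h8 : η * M / C = α * M / 4 := by
      rw [div_eq_iff (by linarith), hC, ← hαη]
      ring
    rw [h8]
    nlinarith
  have h9 : Real.exp (-(α * ((L - 1 : ℕ) : ℝ))) ≤ 2 * Real.exp (-(η * M / C)) := by
    refine (Real.exp_le_exp.2 h7).trans ?_
    rw [Real.exp_add]
    gcongr
    have := expo (α := 1 / 2) (by norm_num) (by norm_num)
    linarith
  refine ⟨L, by omega, by omega, ?_, ?_⟩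
  · refine (main2 Pool.Agent.Mob.H69.cth M V E η α hη hα0 h2 L (by omega) (by omega)).trans ?_
    refine pow_le_pow_left₀ (by positivity) (le_trans ?_ herr) 2
    calc 4 * d / η ^ 2 * Real.exp (-(α * ((L - 1 : ℕ) : ℝ))) ≤
        4 * d / η ^ 2 * (2 * Real.exp (-(η * M / C))) := by gcongr
      _ = 8 * d / η ^ 2 * Real.exp (-(η * M / C)) := by ring
      _ ≤ _ := by
          gcongr
          rw [hC]
          linarith
  · intro B hB
    refine (far Pool.Agent.Mob.H69.cth V E η α hη hα0 h2 L B hB).trans ?_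
    have h10 : Real.exp (-(2 * α * L)) * (4 / η ^ 2) = (2 / η * Real.exp (-(α * L))) ^ 2 := by
      have h11 : Real.exp (-(2 * α * L)) = Real.exp (-(α * L)) ^ 2 := by
        rw [← Real.exp_nat_mul]
        congr 1
        push_cast
        ring
      rw [h11]
      field_simp
      norm_num
    rw [h10]
    refine pow_le_pow_left₀ (by positivity) (le_trans ?_ herr) 2
    have h12 : Real.exp (-(α * L)) ≤ Real.exp (-(α * ((L - 1 : ℕ) : ℝ))) := by
      refine Real.exp_le_exp.2 (neg_le_neg (mul_le_mul_of_nonneg_left ?_ hα0))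
      exact_mod_cast Nat.sub_le _ _
    have h13 : 2 / η ≤ 2 / η ^ 2 := by
      apply div_le_div_of_nonneg_left (by norm_num) (by positivity)
      nlinarith
    calc 2 / η * Real.exp (-(α * L)) ≤ 2 / η ^ 2 * (2 * Real.exp (-(η * M / C))) := by
          gcongr
          exact h12.trans h9
      _ = 4 / η ^ 2 * Real.exp (-(η * M / C)) := by ring
      _ ≤ _ := by
          gcongr
          linarith

open Classical in
/-- masses -/
theorem mass {d M : ℕ} [NeZero M] (V : Site d → ℝ) (E η : ℝ) (hη : 0 < η) (L : ℕ) (hL : 1 ≤ L)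
    (hM : 4 * L + 3 ≤ M)
    (h1 : ∑ x : Tor d M, ‖(ct L (rep x) : ℂ) * G V (zz η E) (del 0) (rep x) -
        rs (fun x : Tor d M => V (rep x)) ⟨E, η⟩ x 0‖ ^ 2 ≤ η ^ 2)
    (h2 : ∀ B : Finset (Site d), (∀ y ∈ B, L ≤ sd 0 y) →
        ∑ y ∈ B, ‖G V (zz η E) (del 0) y‖ ^ 2 ≤ η ^ 2) (P : Site d → Prop) :
    ∑' y : Site d, (if P y then ENNReal.ofReal (η * ‖G V (zz η E) (del 0) y‖ ^ 2) else 0) ≤
      ENNReal.ofReal (2 * (η * ∑ x : Tor d M, (if P (rep x) then
        ‖rs (fun x : Tor d M => V (rep x)) ⟨E, η⟩ x 0‖ ^ 2 else 0)) + 3 * η ^ 3) := by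
  rw [ENNReal.tsum_eq_iSup_sum]
  refine iSup_le fun B => ?_
  have e1 : ∀ y, (if P y then ENNReal.ofReal (η * ‖G V (zz η E) (del 0) y‖ ^ 2) else 0) =
      ENNReal.ofReal (if P y then η * ‖G V (zz η E) (del 0) y‖ ^ 2 else 0) := by
    intro y
    split_ifs
    · rfl
    · rw [ENNReal.ofReal_zero]
  rw [Finset.sum_congr rfl fun y _ => e1 y, ← ENNReal.ofReal_sum_of_nonneg (fun y _ => by
    split_ifs <;> positivity)]
  refine ENNReal.ofReal_le_ofReal ?_
  rw [← Finset.sum_filter_add_sum_filter_not B (fun y => L ≤ sd 0 y)]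
  have hfar : ∑ y ∈ B with L ≤ sd 0 y, (if P y then η * ‖G V (zz η E) (del 0) y‖ ^ 2 else 0) ≤
      η * η ^ 2 := by
    refine le_trans ?_ (mul_le_mul_of_nonneg_left (h2 (B.filter fun y => L ≤ sd 0 y)
      (fun y hy => (Finset.mem_filter.1 hy).2)) hη.le)
    rw [Finset.mul_sum]
    refine Finset.sum_le_sum fun y _ => ?_
    split_ifs
    · exact le_rfl
    · positivity
  have hnear : ∑ y ∈ B with ¬ L ≤ sd 0 y, (if P y then η * ‖G V (zz η E) (del 0) y‖ ^ 2 else 0) ≤
      2 * (η * ∑ x : Tor d M, (if P (rep x) then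
        ‖rs (fun x : Tor d M => V (rep x)) ⟨E, η⟩ x 0‖ ^ 2 else 0)) + 2 * (η * η ^ 2) := by
    have h3 : ∑ y ∈ B with ¬ L ≤ sd 0 y, (if P y then η * ‖G V (zz η E) (del 0) y‖ ^ 2 else 0) ≤
        ∑ x : Tor d M, (if sd 0 (rep x) < L then
          (if P (rep x) then η * ‖G V (zz η E) (del 0) (rep x)‖ ^ 2 else 0) else 0) := by
      have h8 : ∑ x : Tor d M, (if sd 0 (rep x) < L then
          (if P (rep x) then η * ‖G V (zz η E) (del 0) (rep x)‖ ^ 2 else 0) else 0) =
          ∑ x ∈ Finset.univ.filter fun x : Tor d M => sd 0 (rep x) < L,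
            (fun y => (if P y then η * ‖G V (zz η E) (del 0) y‖ ^ 2 else 0)) (rep x) :=
        (Finset.sum_filter _ _).symm
      rw [h8]
      rw [← Finset.sum_image (s := Finset.univ.filter fun x : Tor d M => sd 0 (rep x) < L)
        (f := fun y => (if P y then η * ‖G V (zz η E) (del 0) y‖ ^ 2 else 0))
        (g := rep) (fun x _ y _ h => rep_inj h)]
      refine Finset.sum_le_sum_of_subset_of_nonneg ?_ (fun y _ _ => by
        split_ifs <;> positivity)
      intro y hy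
      rw [Finset.mem_filter] at hy
      have h4 : rep (ti M 0 y) = y := rep_ti (R := L) (by omega) (by omega)
      rw [Finset.mem_image]
      refine ⟨ti M 0 y, ?_, h4⟩
      rw [Finset.mem_filter, h4]
      exact ⟨Finset.mem_univ _, by omega⟩
    refine h3.trans ?_
    have h5 : 2 * (η * ∑ x : Tor d M, (if P (rep x) then
        ‖rs (fun x : Tor d M => V (rep x)) ⟨E, η⟩ x 0‖ ^ 2 else 0)) + 2 * (η * η ^ 2) ≥
        ∑ x : Tor d M, (2 * (η * (if P (rep x) then
        ‖rs (fun x : Tor d M => V (rep x)) ⟨E, η⟩ x 0‖ ^ 2 else 0)) +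
        2 * (η * ‖(ct L (rep x) : ℂ) * G V (zz η E) (del 0) (rep x) -
        rs (fun x : Tor d M => V (rep x)) ⟨E, η⟩ x 0‖ ^ 2)) := by
      rw [Finset.sum_add_distrib, ← Finset.mul_sum, ← Finset.mul_sum, ← Finset.mul_sum,
        ← Finset.mul_sum]
      gcongr
    refine le_trans (Finset.sum_le_sum fun x _ => ?_) h5
    by_cases hx : sd 0 (rep x) < L
    · rw [if_pos hx, ct_one hL hx.le]
      by_cases hP : P (rep x)
      · rw [if_pos hP, if_pos hP]
        obtain ⟨g, hg⟩ : ∃ g : ℂ, g = G V (zz η E) (del 0) (rep x) := ⟨_, rfl⟩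
        obtain ⟨q, hq⟩ : ∃ q : ℂ, q = rs (fun x : Tor d M => V (rep x)) ⟨E, η⟩ x 0 := ⟨_, rfl⟩
        rw [← hg, ← hq, Complex.ofReal_one, one_mul]
        have h6 : ‖g‖ ≤ ‖q‖ + ‖g - q‖ := by
          have := norm_add_le q (g - q)
          rwa [add_sub_cancel] at this
        have h7 : ‖g‖ ^ 2 ≤ 2 * ‖q‖ ^ 2 + 2 * ‖g - q‖ ^ 2 := by
          have h8 : ‖g‖ ^ 2 ≤ (‖q‖ + ‖g - q‖) ^ 2 := by gcongr
          nlinarith [sq_nonneg (‖q‖ - ‖g - q‖)]
        nlinarith
      · rw [if_neg hP, if_neg hP]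
        positivity
    · rw [if_neg hx]
      have : (0 : ℝ) ≤ (if P (rep x) then
        ‖rs (fun x : Tor d M => V (rep x)) ⟨E, η⟩ x 0‖ ^ 2 else 0) := by
        split_ifs <;> positivity
      positivity
  calc _ ≤ η * η ^ 2 + (2 * (η * ∑ x : Tor d M, (if P (rep x) then
        ‖rs (fun x : Tor d M => V (rep x)) ⟨E, η⟩ x 0‖ ^ 2 else 0)) + 2 * (η * η ^ 2)) :=
        add_le_add hfar hnear
    _ = _ := by ring

open Classical in
/-- the event on the torus -/
def ET (d M : ℕ) [NeZero M] (E η c ε : ℝ) (P Q : Site d → Prop) : Set (Tor d M → ℝ) :=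
  {V | c ≤ (rs V ⟨E, η⟩ 0 0).im ∧ (rs V ⟨E, η⟩ 0 0).im ≤ 1 / c ∧
    η * ∑ x : Tor d M, (if P (rep x) then ‖rs V ⟨E, η⟩ x 0‖ ^ 2 else 0) ≤ ε ∧
    η * ∑ x : Tor d M, (if Q (rep x) then ‖rs V ⟨E, η⟩ x 0‖ ^ 2 else 0) ≤ ε}

open Classical in
/-- the event on the lattice -/
def EZ (d : ℕ) (E η c ε : ℝ) (P Q : Site d → Prop) : Set (Site d → ℝ) :=
  {V | c / 2 ≤ (G V (zz η E) (del 0) 0).im ∧ (G V (zz η E) (del 0) 0).im ≤ 2 / c ∧
    ∑' y : Site d, (if P y then ENNReal.ofReal (η * ‖G V (zz η E) (del 0) y‖ ^ 2) else 0) ≤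
      ENNReal.ofReal (3 * ε) ∧
    ∑' y : Site d, (if Q y then ENNReal.ofReal (η * ‖G V (zz η E) (del 0) y‖ ^ 2) else 0) ≤
      ENNReal.ofReal (3 * ε)}

theorem meas_ET {d M : ℕ} [NeZero M] (E η c ε : ℝ) (hη : 0 < η) (P Q : Site d → Prop) :
    MeasurableSet (ET d M E η c ε P Q) := by
  have h1 : ∀ x y : Tor d M, Measurable fun V : Tor d M → ℝ => rs V ⟨E, η⟩ x y := fun x y =>
    Pool.Agent.ANE.H90.mrs d M ⟨E, η⟩ x y hη
  have h2 : ∀ P : Site d → Prop, Measurable fun V : Tor d M → ℝ =>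
      η * ∑ x : Tor d M, (open Classical in if P (rep x) then ‖rs V ⟨E, η⟩ x 0‖ ^ 2 else 0) := by
    intro P
    refine Measurable.const_mul ?_ η
    refine Finset.measurable_fun_sum _ fun x _ => ?_
    by_cases h : P (rep x)
    · simp only [if_pos h]
      exact (h1 x 0).norm.pow_const 2
    · simp only [if_neg h]
      exact measurable_const
  unfold ET
  refine (measurableSet_le measurable_const (Complex.measurable_im.comp (h1 0 0))).inter
    ((measurableSet_le (Complex.measurable_im.comp (h1 0 0)) measurable_const).inter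
      ((measurableSet_le (h2 P) measurable_const).inter (measurableSet_le (h2 Q) measurable_const)))

/-- TRQ: FROM THE TORUS TO THE LATTICE -/
theorem trq (d : ℕ) : ∃ C : ℝ, 1 ≤ C ∧ ∀ (σ c ε E η : ℝ) (p : ℝ≥0∞) (M : ℕ) [NeZero M]
    (P Q : Site d → Prop), σ ≠ 0 → 0 < c → c ≤ 1 → 0 < η → η ≤ c / 2 → η ≤ ε →
    η ≤ 1 / (24 * C ^ 5) → 1 ≤ η ^ 2 * M →
    (∀ v : ℝ≥0, (v : ℝ) = σ ^ 2 → p ≤ gau d M v (ET d M E η c ε P Q)) →
    p ≤ PP d (gl σ) (EZ d E η c ε P Q) := by
  obtain ⟨C, hC1, hC⟩ := l2 d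
  refine ⟨C, hC1, ?_⟩
  intro σ c ε E η p M _ P Q hσ hc hc1 hη hηc hηε hη4 hηM hp
  have hη1 : η ≤ 1 / 24 := by
    refine hη4.trans (one_div_le_one_div_of_le (by norm_num) ?_)
    have : (1 : ℝ) ≤ C ^ 5 := one_le_pow₀ hC1
    linarith
  obtain ⟨v, hv⟩ : ∃ v : ℝ≥0, (v : ℝ) = σ ^ 2 := ⟨⟨σ ^ 2, sq_nonneg σ⟩, rfl⟩
  have hSm := meas_ET (M := M) E η c ε hη P Q
  have h2 : PP d (gl σ) {V : Site d → ℝ | (fun x : Tor d M => V ((0 : Site d) + rep x)) ∈
      ET d M E η c ε P Q} = gau d M v (ET d M E η c ε P Q) := by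
    have hf : Measurable fun (V : Site d → ℝ) (x : Tor d M) => V ((0 : Site d) + rep x) :=
      measurable_pi_lambda _ fun x => measurable_pi_apply _
    have h3 := Pool.Agent.LE.QY.H60.lin_eq (d := d) (M := M) hσ hv (0 : Site d)
      ((ET d M E η c ε P Q).indicator 1) (measurable_one.indicator hSm)
    rw [lintegral_indicator_one hSm] at h3
    rw [← h3]
    exact (lintegral_indicator_one (μ := PP d (gl σ)) (hf hSm)).symm
  refine (hp v hv).trans ?_
  rw [← h2]
  apply measure_mono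
  intro V hV
  have h5 : (fun x : Tor d M => V ((0 : Site d) + rep x)) = fun x : Tor d M => V (rep x) := by
    funext x
    rw [zero_add]
  have h6 : (fun x : Tor d M => V ((0 : Site d) + rep x)) ∈ ET d M E η c ε P Q := hV
  rw [h5] at h6
  obtain ⟨e1, e2, e3, e4⟩ := h6
  obtain ⟨L, hL1, hLM, h7, h8⟩ := hC M V E η hη hη4 hηM
  have h9 : ‖G V (zz η E) (del 0) 0 - rs (fun x : Tor d M => V (rep x)) ⟨E, η⟩ 0 0‖ ≤ η := by
    have h10 := (Finset.single_le_sum (f := fun x : Tor d M =>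
      ‖(ct L (rep x) : ℂ) * G V (zz η E) (del 0) (rep x) -
        rs (fun x : Tor d M => V (rep x)) ⟨E, η⟩ x 0‖ ^ 2) (fun x _ => by positivity)
      (Finset.mem_univ 0)).trans h7
    have h16 : sd (0 : Site d) 0 ≤ L := by
      have h17 : sd (0 : Site d) 0 = 0 := by
        rw [← Nat.le_zero, sd_le_iff]
        simp
      omega
    simp only [rep_zero'] at h10
    rw [ct_one hL1 h16, Complex.ofReal_one, one_mul] at h10
    exact (pow_le_pow_iff_left₀ (norm_nonneg _) hη.le (by norm_num)).1 h10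
  have h11 := (Complex.abs_im_le_norm _).trans h9
  rw [Complex.sub_im, abs_le] at h11
  have h12 : 1 / c + η ≤ 2 / c := by
    have h13 : η ≤ 1 / c := by
      have : 1 ≤ 1 / c := by rw [le_div_iff₀ hc]; linarith
      linarith
    have : 2 / c = 1 / c + 1 / c := by ring
    linarith
  have h14 : 3 * η ^ 3 ≤ ε := by
    have h15 : η ^ 2 ≤ 1 / 24 ^ 2 := by
      have : η ^ 2 ≤ (1 / 24) ^ 2 := by gcongr
      linarith
    have : η ^ 3 = η * η ^ 2 := by ring
    rw [this]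
    nlinarith
  refine ⟨?_, ?_, ?_, ?_⟩
  · change c / 2 ≤ (G V (zz η E) (del 0) 0).im
    linarith [h11.1]
  · change (G V (zz η E) (del 0) 0).im ≤ 2 / c
    linarith [h11.2]
  · refine (mass V E η hη L hL1 hLM h7 h8 P).trans (ENNReal.ofReal_le_ofReal ?_)
    linarith
  · refine (mass V E η hη L hL1 hLM h7 h8 Q).trans (ENNReal.ofReal_le_ofReal ?_)
    linarith

end Pool.Agent.QDA.H34
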