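import Pool.Agent.Helper34_ACX.P8

/-!
# QDA, row PHS: the sum of the protocol, with an error proportional to `w`
-/

set_option autoImplicit false

open Finset

open scoped NNReal BigOperators

noncomputable section

namespace Pool.Agent.QDA.H34N

open Pool.Agent.AND2B Pool.Agent.ANP Pool.Agent.ACX.H34
open Pool.Agent.BED (Tor)

section num

variable {d J : ℕ} {th : ℝ≥0} {c₁ C₁ β : ℝ} {α : ℕ} {w : ℝ≥0} {t : ℝ} {N μ : ℕ}
  {kk l r Kn Dn : ℕ → ℕ} (hS : Scal d th c₁ C₁ α J β w t N μ kk l r Kn Dn)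
  (hw : 0 < w) (hth : 0 < th) (hth1 : th < 1)

variable (hw1 : 2 * 3 ^ d * (w : ℝ) ≤ 1) (hw64 : (w : ℝ) ≤ 1 / 64) (hα : 4 * d + 4 ≤ α)

include hS hw hth hth1 hw64 in
theorem trm_hiW (Cc : ℝ) (hCc : 0 ≤ Cc) (A : ℕ) (hA : A0 d C₁ α ≤ A) (j : ℕ) (hj : N ≤ j + 1)
    (hj2 : j < N + 2)
    (hq : ∀ n ≤ N, ∀ B, H72.QQ (Gt d μ J N l r).ch J
      (fun i => pic w th kk β N l d i.1) n B ≤ sg w th kk (n + 1) ^ A) :
    trm w th kk β d μ J N l r Cc j ≤ w := by
  have hcard := card_s hS hw hth hth1 hw64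
  obtain ⟨m, hm⟩ : ∃ m, m = ⌈|C₁|⌉₊ * (α + 1) * d := ⟨_, rfl⟩
  rw [← hm] at hcard
  have hmA : (α + 1) * m + 1 ≤ A ∧ 2 * m + 1 ≤ A := by
    have h1 : ⌈|C₁|⌉₊ * (α + 1) * (α + 1) * d = (α + 1) * m := by
      rw [hm]
      ring
    have h2 : m ≤ (α + 1) * m := Nat.le_mul_of_pos_left _ (by omega)
    unfold A0 at hA
    rw [h1] at hA
    have h3 : 0 ≤ 4 * d * (α + 1) := Nat.zero_le _
    constructor
    · omega
    · omega
  have hz0 : 0 < sg w th kk (N + 1) := s_pos hw hth (N + 1)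
  have hz1 : sg w th kk (N + 1) ≤ 1 := s_le1 hS hth1 hw64 (N + 1)
  have hzw : sg w th kk (N + 1) ≤ w := s_le hS hth1 (N + 1)
  have hM : (0 : ℝ) < ((2 : ℝ) ^ μ) ^ d := by positivity
  have hwt : wgt w th kk d μ Cc N r j = 1 := by
    unfold wgt
    rw [if_neg (by omega)]
  rcases (show j + 1 = N ∨ j = N ∨ j = N + 1 by omega) with h | h | h
  · -- level `N - 1`
    have hy0 : 0 < sg w th kk N := s_pos hw hth N
    have hy1 : sg w th kk N ≤ 1 := s_le1 hS hth1 hw64 N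
    have hyw : sg w th kk N ≤ w := s_le hS hth1 N
    have h1 := hq j (by omega)
    rw [h] at h1
    refine (trm_le Cc hCc j _ (by positivity) h1).trans ?_
    rw [hwt, one_mul]
    have h2 := hS.low N le_rfl
    calc ((2 : ℝ) ^ μ) ^ d * sg w th kk N ^ A ≤
        ((2 : ℝ) ^ μ) ^ d * sg w th kk N ^ ((α + 1) * m + 1) := by
          refine mul_le_mul_of_nonneg_left ?_ hM.le
          exact pow_le_pow_of_le_one hy0.le hy1 hmA.1
      _ = ((2 : ℝ) ^ μ) ^ d * (sg w th kk N ^ (α + 1)) ^ m * sg w th kk N := by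
          rw [pow_succ, pow_mul]
          ring
      _ ≤ ((2 : ℝ) ^ μ) ^ d * (sg w th kk (N + 1)) ^ m * sg w th kk N := by gcongr
      _ ≤ 1 * sg w th kk N := by gcongr
      _ ≤ w := by linarith
  · subst h
    refine (trm_le Cc hCc j _ (by positivity) (hq j le_rfl)).trans ?_
    rw [hwt, one_mul]
    calc ((2 : ℝ) ^ μ) ^ d * sg w th kk (j + 1) ^ A ≤
        ((2 : ℝ) ^ μ) ^ d * sg w th kk (j + 1) ^ (m + 1) := by
          refine mul_le_mul_of_nonneg_left ?_ hM.le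
          exact pow_le_pow_of_le_one hz0.le hz1 (by omega)
      _ = ((2 : ℝ) ^ μ) ^ d * sg w th kk (j + 1) ^ m * sg w th kk (j + 1) := by
          rw [pow_succ]
          ring
      _ ≤ 1 * sg w th kk (j + 1) := by gcongr
      _ ≤ w := by linarith
  · subst h
    have hMs : ((2 : ℝ) ^ μ) ^ d * sg w th kk (N + 1) ^ A ≤ sg w th kk (N + 1) ^ (m + 1) := by
      calc ((2 : ℝ) ^ μ) ^ d * sg w th kk (N + 1) ^ A ≤
          ((2 : ℝ) ^ μ) ^ d * sg w th kk (N + 1) ^ (m + (m + 1)) := by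
            refine mul_le_mul_of_nonneg_left ?_ hM.le
            exact pow_le_pow_of_le_one hz0.le hz1 (by omega)
        _ = ((2 : ℝ) ^ μ) ^ d * sg w th kk (N + 1) ^ m * sg w th kk (N + 1) ^ (m + 1) := by
            rw [pow_add]
            ring
        _ ≤ 1 * sg w th kk (N + 1) ^ (m + 1) := by gcongr
        _ = sg w th kk (N + 1) ^ (m + 1) := one_mul _
    have hqt : ∀ B, H72.QQ (Gt d μ J N l r).ch J (fun i => pic w th kk β N l d i.1) (N + 1) B ≤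
        sg w th kk (N + 1) ^ (m + 1) := by
      intro B
      have h3 := qq_top (Gt d μ J N l r).ch J (fun i => pic w th kk β N l d i.1)
        (fun c => pic_nonneg hS.km c.1) N B (sg w th kk (N + 1) ^ A)
        (pic_zero (N + 1) (Nat.lt_succ_self N)) (hq N le_rfl)
        (by
          rw [card_tor]
          exact hMs.trans (pow_le_one₀ hz0.le hz1))
      rw [card_tor] at h3
      exact h3.trans hMs
    refine (trm_le Cc hCc (N + 1) _ (by positivity) hqt).trans ?_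
    rw [hwt, one_mul]
    calc ((2 : ℝ) ^ μ) ^ d * sg w th kk (N + 1) ^ (m + 1) =
        ((2 : ℝ) ^ μ) ^ d * sg w th kk (N + 1) ^ m * sg w th kk (N + 1) := by
          rw [pow_succ]
          ring
      _ ≤ 1 * sg w th kk (N + 1) := by gcongr
      _ ≤ w := by linarith

include hS hw hth hth1 hw64 hα in
/-- THE SUM, with an error proportional to `w` -/
theorem sum_leW (Cc : ℝ) (hCc : 0 ≤ Cc) (A : ℕ) (hA : A0 d C₁ α ≤ A)
    (hq : ∀ n ≤ N, ∀ B, H72.QQ (Gt d μ J N l r).ch J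
      (fun i => pic w th kk β N l d i.1) n B ≤ sg w th kk (n + 1) ^ A) :
    ∑ j ∈ range (N + 2), wgt w th kk d μ Cc N r j *
      ∑ B ∈ ({B | (Gt d μ J N l r).bl j B = B} : Finset (Fin d → ZMod (2 ^ μ))),
        H72.QQ (Gt d μ J N l r).ch J (fun i => pic w th kk β N l d i.1) j B ≤
      (3 ^ d * Cc + 3) * w := by
  have h1 : ∀ j ∈ range (N + 2), trm w th kk β d μ J N l r Cc j ≤
      3 ^ d * Cc * w * (1 / 2) ^ (j + 2) + (if N ≤ j + 1 then (w : ℝ) else 0) := by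
    intro j hj
    rw [mem_range] at hj
    by_cases h : N ≤ j + 1
    · rw [if_pos h]
      have h2 := trm_hiW hS hw hth hth1 hw64 Cc hCc A hA j h hj hq
      have h3 : 0 ≤ 3 ^ d * Cc * (w : ℝ) * (1 / 2) ^ (j + 2) := by positivity
      linarith
    · rw [if_neg h, add_zero]
      exact trm_lo hS hw hth hth1 hw64 hα Cc hCc A hA j (by omega) (hq j (by omega))
  refine (Finset.sum_le_sum h1).trans ?_
  rw [Finset.sum_add_distrib, ← Finset.mul_sum]
  have h2 : ∑ j ∈ range (N + 2), ((1 : ℝ) / 2) ^ (j + 2) ≤ 1 / 2 := by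
    have h3 : ∀ n : ℕ, ∑ j ∈ range n, ((1 : ℝ) / 2) ^ (j + 2) = 1 / 2 - (1 / 2) ^ (n + 1) := by
      intro n
      induction n with
      | zero => norm_num
      | succ n ih =>
        rw [Finset.sum_range_succ, ih]
        ring
    rw [h3]
    have : (0 : ℝ) < (1 / 2) ^ (N + 2 + 1) := by positivity
    linarith
  have h4 : ∑ j ∈ range (N + 2), (if N ≤ j + 1 then (w : ℝ) else 0) ≤ 3 * w := by
    rw [← Finset.sum_filter, Finset.sum_const, nsmul_eq_mul]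
    have h5 : ((range (N + 2)).filter (fun j => N ≤ j + 1)).card ≤ 3 := by
      have h6 : (range (N + 2)).filter (fun j => N ≤ j + 1) ⊆ {N - 1, N, N + 1} := by
        intro j hj
        rw [mem_filter, mem_range] at hj
        simp only [mem_insert, mem_singleton]
        omega
      exact (card_le_card h6).trans (Finset.card_le_three)
    have h7 : (((range (N + 2)).filter (fun j => N ≤ j + 1)).card : ℝ) ≤ 3 := by exact_mod_cast h5
    gcongr
  have h8 : 3 ^ d * Cc * (w : ℝ) * ∑ j ∈ range (N + 2), ((1 : ℝ) / 2) ^ (j + 2) ≤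
      3 ^ d * Cc * (w : ℝ) * (1 / 2) := by
    refine mul_le_mul_of_nonneg_left h2 (by positivity)
  have h9 : 0 ≤ 3 ^ d * Cc * (w : ℝ) := by positivity
  linarith

end num

/-- P8 from the scales, with the sum at most `δ₁` -/
theorem num8d (d : ℕ) (C₁ : ℝ) (α : ℕ) (ca cb δ₁ : ℝ) (hca : 0 ≤ ca) (hcb : 0 ≤ cb) (hδ : 0 < δ₁) :
    ∃ w₁ : ℝ, 0 < w₁ ∧ w₁ ≤ 1 ∧ ∀ (J : ℕ) (th : ℝ≥0) (c₁ β : ℝ) (w : ℝ≥0) (t : ℝ) (N μ : ℕ)
      (kk l r Kn Dn : ℕ → ℕ), Scal d th c₁ C₁ α J β w t N μ kk l r Kn Dn →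
      0 < w → (w : ℝ) ≤ w₁ → 1 / 2 ≤ th → th < 1 → 1 ≤ N → c₁ ≤ 1 → 4 * d + 4 ≤ α →
      (∀ n ≤ N, ∀ B, H72.QQ (Gt d μ J N l r).ch J
        (fun i => 2 * pf w th kk β N i.1 *
          ((kk (i.1 + 1) : ℝ) - kk i.1 + ((2 ^ l i.1 : ℕ) : ℝ) ^ d)) n B ≤
            sg w th kk (n + 1) ^ ((A0 d C₁ α : ℕ) : ℝ)) →
      ∃ π c W : ℕ → ℝ, Num8 d th J β w N μ kk l r ca cb π c W ∧
        ∑ j ∈ range ((Gt d μ J N l r).N + 2), W j *
          ∑ B ∈ ({B | (Gt d μ J N l r).bl j B = B} : Finset (Fin d → ZMod (2 ^ μ))),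
            H72.QQ (Gt d μ J N l r).ch (Gt d μ J N l r).J (fun i => π i.1) j B ≤ δ₁ := by
  have hC : 0 ≤ ca + 2 * cb := by linarith
  have h3 : (1 : ℝ) ≤ 3 ^ d := one_le_pow₀ (by norm_num)
  obtain ⟨w₂, hw₂⟩ : ∃ w₂ : ℝ, w₂ = 1 / (64 * 3 ^ d * (1 + (ca + 2 * cb))) := ⟨_, rfl⟩
  have hw₂0 : 0 < w₂ := by
    rw [hw₂]
    positivity
  have hw₂1 : w₂ ≤ 1 := by
    rw [hw₂, div_le_one (by positivity)]
    nlinarith
  have hD : 0 < 3 ^ d * (ca + 2 * cb) + 3 := by positivity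
  refine ⟨min w₂ (δ₁ / (3 ^ d * (ca + 2 * cb) + 3)), lt_min hw₂0 (by positivity),
    (min_le_left _ _).trans hw₂1, ?_⟩
  intro J th c₁ β w t N μ kk l r Kn Dn hS hw hw1 hth hth1 hN hc₁ hα hq
  have hw0 : (0 : ℝ) < w := by exact_mod_cast hw
  have h5 : (w : ℝ) * (64 * 3 ^ d * (1 + (ca + 2 * cb))) ≤ 1 := by
    have h6 := hw1.trans (min_le_left _ _)
    rwa [hw₂, le_div_iff₀ (by positivity)] at h6
  have h6 : (3 ^ d * (ca + 2 * cb) + 3) * w ≤ δ₁ := by
    have h6 := hw1.trans (min_le_right _ _)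
    rw [le_div_iff₀ hD] at h6
    linarith
  have h7 : 0 ≤ (w : ℝ) * 3 ^ d * (ca + 2 * cb) := by positivity
  have h8 : (w : ℝ) * 1 ≤ w * 3 ^ d := by gcongr
  have hw64 : (w : ℝ) ≤ 1 / 64 := by nlinarith
  have hth0 : 0 < th := lt_of_lt_of_le (by norm_num) hth
  refine ⟨_, _, _, num8 hS hw hth hth1 hN hc₁ hα ca cb hca hcb (by nlinarith) hw64
    (by nlinarith) hq, ?_⟩
  refine (sum_leW hS hw hth0 hth1 hw64 hα (ca + 2 * cb) hC (A0 d C₁ α) le_rfl ?_).trans h6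
  intro n hn B
  have h := hq n hn B
  rw [Real.rpow_natCast] at h
  exact h

end Pool.Agent.QDA.H34N
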