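import Pool.Agent.Helper61_AND.Num
import Pool.Agent.AHH.Z

/-!
# QDA, row PHS: the numbers
-/

set_option autoImplicit false

open Filter

open scoped NNReal

noncomputable section

namespace Pool.Agent.QDA.H34P

open Pool.Agent.AND.Num

/-- the numbers which depend on `w` only -/
structure Sm (a c C K δ κ w : ℝ) : Prop where
  n1 : 3 * w ^ (1 / 20 : ℝ) ≤ δ / 2
  n2 : w ^ (1 / 8 : ℝ) ≤ δ
  n3 : 2 * w ^ (κ / 2) ≤ δ
  n4 : 3 * w ^ (κ / 4) ≤ 1 / 2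
  n5 : w ≤ c ^ 4
  n6 : w ≤ 1 / C
  n7 : w ≤ a / 4
  n8 : w ≤ c / (12 * K)
  n9 : w ^ (1 / 5000 : ℝ) ≤ c ^ 2 / 64
  n10 : w ≤ c ^ 2 / (64 * K)
  n11 : w ≤ 1 / 64

theorem sm {a c C K δ κ : ℝ} (ha : 0 < a) (hc : 0 < c) (hC : 0 < C) (hK : 0 < K) (hδ : 0 < δ)
    (hκ : 0 < κ) : Small (Sm a c C K δ κ) := by
  have h1 := small_rpow_le (δ / 6) (1 / 20) (by positivity) (by norm_num)
  have h2 := small_rpow_le δ (1 / 8) hδ (by norm_num)
  have h3 := small_rpow_le (δ / 2) (κ / 2) (by positivity) (by positivity)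
  have h4 := small_rpow_le (1 / 6) (κ / 4) (by positivity) (by positivity)
  have h5 := small_le (c ^ 4) (by positivity)
  have h6 := small_le (1 / C) (by positivity)
  have h7 := small_le (a / 4) (by positivity)
  have h8 := small_le (c / (12 * K)) (by positivity)
  have h9 := small_rpow_le (c ^ 2 / 64) (1 / 5000) (by positivity) (by norm_num)
  have h10 := small_le (c ^ 2 / (64 * K)) (by positivity)
  have h11 := small_le (1 / 64) (by norm_num)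
  refine (((((((((((h1.and h2).and h3).and h4).and h5).and h6).and h7).and h8).and h9).and
    h10).and h11)).mono fun w _ h => ?_
  obtain ⟨⟨⟨⟨⟨⟨⟨⟨⟨⟨h1, h2⟩, h3⟩, h4⟩, h5⟩, h6⟩, h7⟩, h8⟩, h9⟩, h10⟩, h11⟩ := h
  exact ⟨by linarith, h2, by linarith, by linarith, h5, h6, h7, h8, h9, h10, h11⟩

/-- the choice of the dyadic radius -/
theorem dya (r : ℕ) : ∃ j : ℕ, r ≤ 2 ^ j ∧ (2 : ℝ) ^ j ≤ 2 * (r + 1) := by
  obtain ⟨n, h1, h2⟩ := exists_nat_pow_near (x := r + 1) (y := 2) (by omega) (by norm_num)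
  refine ⟨n + 1, by omega, ?_⟩
  have h3 : (2 : ℝ) ^ n ≤ (r : ℝ) + 1 := by exact_mod_cast h1
  rw [pow_succ]
  linarith

/-- the choice of the stage -/
theorem stg {th x : ℝ} (h0 : 0 < th) (h1 : th < 1) (hx : 0 < x) (hx1 : x ≤ 1) :
    ∃ n : ℕ, th * th ^ n < x ∧ x ≤ th ^ n := by
  obtain ⟨n, h2, h3⟩ := exists_nat_pow_near_of_lt_one hx hx1 h0 h1
  exact ⟨n, by rw [pow_succ] at h2; linarith, h3⟩

/-- the facts about the last clock `f` -/
structure Fk (a c C K P w f η m r R : ℝ) : Prop where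
  f1 : f ≤ w ^ (P + 5)
  f2 : f ≤ w ^ 5
  f3 : f ≤ w
  f4 : f * C ≤ w ^ 2
  f5 : (f * m) ^ (-4 : ℝ) ≤ f ^ (-5 : ℝ)
  f6 : (w ^ 4)⁻¹ ≤ f ^ (-5 : ℝ)
  f7 : 2 * K * (2 * (r + 1)) ≤ f ^ (-5 : ℝ)
  f8 : K * f * (2 * (r + 1)) ^ 2 ≤ c * w ^ (8 * AHH.es - 1) / 2
  f9 : K * (8 * C ^ 3 / w) ≤ f * R ^ 2
  f10 : f ≤ 1

theorem fk {a c C K δ κ P w f η m r R : ℝ} (hs : Sm a c C K δ κ w) (hc : 0 < c) (hc' : c ≤ 1 / 2)
    (hC : 1 ≤ C) (hK : 1 ≤ K) (hw : 0 < w) (hw1 : w ≤ 1) (hP : 0 ≤ P) (hf : 0 < f) (hη : 0 < η)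
    (hηP : η ≤ w ^ (P + 6)) (hfη : f * m ≤ 2 * η) (hηf : η ≤ f * m) (hm : c ≤ m) (hmC : m ≤ C)
    (hr : 0 ≤ r) (hr1 : 8 * K * C ^ 4 * η * r ^ 2 ≤ w ^ (1 / 1000 - 1 : ℝ))
    (hR : 8 * K * C ^ 4 ≤ w * η * R ^ 2) : Fk a c C K P w f η m r R := by
  have hC0 : 0 < C := by linarith
  have hK0 : 0 < K := by linarith
  have hm0 : 0 < m := by linarith
  have g1 : f * c ≤ 2 * η := (mul_le_mul_of_nonneg_left hm hf.le).trans hfη
  have g2 : w ≤ c / 8 := by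
    have h1 := hs.n5
    have h2 : c ^ 4 ≤ c * (1 / 2) ^ 3 := by
      calc c ^ 4 = c * c ^ 3 := by ring
        _ ≤ c * (1 / 2) ^ 3 := by gcongr
    linarith
  have f1 : f ≤ w ^ (P + 5) := by
    have h1 : w ^ (P + 6) = w ^ (P + 5) * w := by
      rw [← Real.rpow_add_one hw.ne']
      congr 1
      ring
    have h2 : 0 < w ^ (P + 5) := Real.rpow_pos_of_pos hw _
    have h3 : f * c ≤ w ^ (P + 5) * c := by
      calc f * c ≤ 2 * (w ^ (P + 5) * w) := by rw [← h1]; linarith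
        _ ≤ 2 * (w ^ (P + 5) * (c / 8)) := by gcongr
        _ ≤ w ^ (P + 5) * c := by nlinarith
    exact le_of_mul_le_mul_right h3 hc
  have f2 : f ≤ w ^ 5 := by
    refine f1.trans ?_
    rw [← Real.rpow_natCast]
    exact Real.rpow_le_rpow_of_exponent_ge hw hw1 (by push_cast; linarith)
  have f3 : f ≤ w := f2.trans (pow_le_of_le_one hw.le hw1 (by norm_num))
  have f10 : f ≤ 1 := f3.trans hw1
  have hwC : w * C ≤ 1 := by
    have := hs.n6
    rwa [le_div_iff₀ hC0] at this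
  have f4 : f * C ≤ w ^ 2 := by
    calc f * C ≤ w ^ 5 * C := by gcongr
      _ = w ^ 4 * (w * C) := by ring
      _ ≤ w ^ 4 * 1 := by gcongr
      _ ≤ w ^ 2 := by
          rw [mul_one]
          exact pow_le_pow_of_le_one hw.le hw1 (by norm_num)
  have e5 : f ^ (-5 : ℝ) = (f ^ 5)⁻¹ := by
    rw [Real.rpow_neg hf.le]
    norm_cast
  have f5 : (f * m) ^ (-4 : ℝ) ≤ f ^ (-5 : ℝ) := by
    have h1 : (f * m) ^ (-4 : ℝ) = ((f * m) ^ 4)⁻¹ := by
      rw [Real.rpow_neg (by positivity)]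
      norm_cast
    rw [h1, e5]
    refine inv_anti₀ (by positivity) ?_
    calc f ^ 5 = f ^ 4 * f := by ring
      _ ≤ f ^ 4 * c ^ 4 := by
          have := f3.trans hs.n5
          gcongr
      _ ≤ f ^ 4 * m ^ 4 := by gcongr
      _ = (f * m) ^ 4 := by ring
  have f6 : (w ^ 4)⁻¹ ≤ f ^ (-5 : ℝ) := by
    rw [e5]
    refine inv_anti₀ (by positivity) ?_
    calc f ^ 5 ≤ w ^ 5 := by gcongr
      _ ≤ w ^ 4 := pow_le_pow_of_le_one hw.le hw1 (by norm_num)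
  have hw12 : w * (12 * K) ≤ c := by
    have := hs.n8
    rwa [le_div_iff₀ (by positivity)] at this
  have h8K : 1 ≤ 8 * K * C ^ 4 := by
    have h1 : 1 ≤ C ^ 4 := one_le_pow₀ hC
    nlinarith
  -- the radius
  have g3 : η * r ^ 2 ≤ w ^ (1 / 1000 - 1 : ℝ) := by
    refine le_trans ?_ hr1
    have h1 : 0 ≤ η * r ^ 2 := by positivity
    nlinarith
  have g4 : w ^ (1 / 1000 - 1 : ℝ) ≤ w⁻¹ := by
    rw [← Real.rpow_neg_one]
    exact Real.rpow_le_rpow_of_exponent_ge hw hw1 (by norm_num)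
  have g5 : (f * r) ^ 2 ≤ (2 / c) ^ 2 := by
    have h1 : f * c * r ^ 2 ≤ 2 * w⁻¹ := by
      calc f * c * r ^ 2 ≤ 2 * η * r ^ 2 := by gcongr
        _ = 2 * (η * r ^ 2) := by ring
        _ ≤ 2 * w⁻¹ := by linarith
    have h2 : f * r ^ 2 ≤ 2 / c * w⁻¹ := by
      rw [div_mul_eq_mul_div, le_div_iff₀ hc]
      linarith
    have h3 : f * w⁻¹ ≤ 1 := by
      rw [← div_eq_mul_inv, div_le_one hw]
      exact f3
    have h4 : (1 : ℝ) ≤ 2 / c := by
      rw [le_div_iff₀ hc]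
      linarith
    calc (f * r) ^ 2 = f * (f * r ^ 2) := by ring
      _ ≤ f * (2 / c * w⁻¹) := by gcongr
      _ = 2 / c * (f * w⁻¹) := by ring
      _ ≤ 2 / c * 1 := by gcongr
      _ ≤ (2 / c) ^ 2 := by nlinarith
  have g6 : f * r ≤ 2 / c := by
    have h1 : 0 ≤ 2 / c := by positivity
    exact le_of_sq_le_sq g5 h1
  have f7 : 2 * K * (2 * (r + 1)) ≤ f ^ (-5 : ℝ) := by
    rw [e5, ← one_div, le_div_iff₀ (by positivity)]
    have h1 : f * (r + 1) ≤ 3 / c := by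
      have h2 : (1 : ℝ) ≤ 1 / c := by
        rw [le_div_iff₀ hc]
        linarith
      have h3 : 3 / c = 2 / c + 1 / c := by ring
      rw [h3]
      nlinarith
    have h2 : f ^ 4 ≤ w := (pow_le_of_le_one hf.le f10 (by norm_num)).trans f3
    have h3 : f * (r + 1) * c ≤ 3 := by
      rwa [le_div_iff₀ hc] at h1
    calc 2 * K * (2 * (r + 1)) * f ^ 5 = 4 * K * (f * (r + 1)) * f ^ 4 := by ring
      _ ≤ 4 * K * (3 / c) * w := by gcongr
      _ = w * (12 * K) / c := by ring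
      _ ≤ 1 := by rwa [div_le_one hc]
  have f8 : K * f * (2 * (r + 1)) ^ 2 ≤ c * w ^ (8 * AHH.es - 1) / 2 := by
    have h0 : 0 < w ^ (8 * AHH.es - 1) := Real.rpow_pos_of_pos hw _
    have h01 : 1 ≤ w ^ (8 * AHH.es - 1) := by
      refine Real.one_le_rpow_of_pos_of_le_one_of_nonpos hw hw1 ?_
      unfold AHH.es
      norm_num
    have h1 : w ^ (1 / 1000 - 1 : ℝ) = w ^ (8 * AHH.es - 1) * w ^ (1 / 5000 : ℝ) := by
      rw [← Real.rpow_add hw]
      congr 1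
      unfold AHH.es
      norm_num
    have h2 : (2 * (r + 1)) ^ 2 ≤ 8 * (r ^ 2 + 1) := by nlinarith [sq_nonneg (r - 1)]
    have h3 : f ≤ 2 * η / c := by
      rwa [le_div_iff₀ hc]
    have h4 : η ≤ w := by
      refine hηP.trans ?_
      conv_rhs => rw [← Real.rpow_one w]
      exact Real.rpow_le_rpow_of_exponent_ge hw hw1 (by linarith)
    have h5 : w * (64 * K) ≤ c ^ 2 := by
      have := hs.n10
      rwa [le_div_iff₀ (by positivity)] at this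
    have hC4 : 1 ≤ C ^ 4 := one_le_pow₀ hC
    have h6 : 8 * K * (η * r ^ 2) ≤ w ^ (8 * AHH.es - 1) * (c ^ 2 / 64) := by
      have h7 : 0 ≤ 8 * K * (η * r ^ 2) := by positivity
      calc 8 * K * (η * r ^ 2) ≤ 8 * K * (η * r ^ 2) * C ^ 4 := by nlinarith
        _ = 8 * K * C ^ 4 * η * r ^ 2 := by ring
        _ ≤ w ^ (1 / 1000 - 1 : ℝ) := hr1
        _ = w ^ (8 * AHH.es - 1) * w ^ (1 / 5000 : ℝ) := h1
        _ ≤ w ^ (8 * AHH.es - 1) * (c ^ 2 / 64) := by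
            have := hs.n9
            gcongr
    have h8 : K * η ≤ w ^ (8 * AHH.es - 1) * (c ^ 2 / 64) := by
      calc K * η ≤ K * w := by gcongr
        _ ≤ c ^ 2 / 64 := by linarith
        _ = 1 * (c ^ 2 / 64) := by ring
        _ ≤ w ^ (8 * AHH.es - 1) * (c ^ 2 / 64) := by gcongr
    calc K * f * (2 * (r + 1)) ^ 2 ≤ K * (2 * η / c) * (8 * (r ^ 2 + 1)) := by gcongr
      _ = (2 * (8 * K * (η * r ^ 2)) + 16 * (K * η)) / c := by ring
      _ ≤ (2 * (w ^ (8 * AHH.es - 1) * (c ^ 2 / 64)) +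
          16 * (w ^ (8 * AHH.es - 1) * (c ^ 2 / 64))) / c := by gcongr
      _ = 9 / 32 * c * w ^ (8 * AHH.es - 1) := by
          field_simp
          ring
      _ ≤ c * w ^ (8 * AHH.es - 1) / 2 := by
          have h9 : 0 < c * w ^ (8 * AHH.es - 1) := by positivity
          linarith
  have f9 : K * (8 * C ^ 3 / w) ≤ f * R ^ 2 := by
    have h1 : 8 * K * C ^ 4 ≤ w * (f * C) * R ^ 2 := by
      refine hR.trans ?_
      have h2 : η ≤ f * C := hηf.trans (by gcongr)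
      gcongr
    have h2 : C * (8 * K * C ^ 3) ≤ C * (w * (f * R ^ 2)) := by
      calc C * (8 * K * C ^ 3) = 8 * K * C ^ 4 := by ring
        _ ≤ w * (f * C) * R ^ 2 := h1
        _ = C * (w * (f * R ^ 2)) := by ring
    have h3 := le_of_mul_le_mul_left h2 hC0
    have h4 : K * (8 * C ^ 3 / w) = 8 * K * C ^ 3 / w := by ring
    rw [h4, div_le_iff₀ hw]
    linarith
  exact ⟨f1, f2, f3, f4, f5, f6, f7, f8, f9, f10⟩

end Pool.Agent.QDA.H34P
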