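import Pool.Agent.Helper34_QDA.Stm

/-!
# QDA, row PHS: stability of the self energy with explicit thresholds
-/

set_option autoImplicit false

open MeasureTheory ProbabilityTheory Function Filter

open scoped BigOperators NNReal ENNReal Matrix InnerProductSpace Topology

noncomputable section

namespace Pool.Agent.QDA.H34S

open Pool.Agent.Anderson hiding box mem_box card_box
open Pool.Agent.Loc Pool.Agent.Mob Pool.Agent.Helper54.Bal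
  Pool.Agent.Helper96.EXP Pool.Agent.BED
open Pool.Agent.LE Pool.Agent.LE.MN Pool.Agent.LE.CL Pool.Agent.LE.IR Pool.Agent.LE.QD
  Pool.Agent.LE.QF

/-- the two facts behind STM, with thresholds which are powers of `T` -/
theorem base (d : ℕ) (b δ : ℝ) (hd : 3 ≤ d) (hb : 0 < b) (hδ : 0 < δ) : ∃ T₀ : ℝ, 0 < T₀ ∧
    ∀ T : ℝ, 0 < T → T ≤ T₀ → b * T ≤ 1 / 2 ∧ T ≤ b / 4 ∧ T ≤ 1 ∧ T ≤ δ / 8 ∧
      ∀ (M : ℕ) [NeZero M], (T ^ 4)⁻¹ ≤ M →
        (∀ z z' : ℂ, b * T ≤ z.im → z.im ≤ 1 / 2 → b * T ≤ z'.im → z'.im ≤ 1 / 2 →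
          ‖rs (0 : Tor d M → ℝ) z 0 0 - rs (0 : Tor d M → ℝ) z' 0 0‖ ≤ 1 / (4 * T) * ‖z - z'‖) ∧
        ∀ z : ℂ, b * T ≤ z.im → z.im ≤ 1 / 2 →
          ‖G (0 : Site d → ℝ) z (del 0) 0 - rs (0 : Tor d M → ℝ) z 0 0‖ ≤ δ / 8 := by
  obtain ⟨CK, hCK, khb⟩ := Pool.Agent.LE.QX.H54.khbT d hd
  obtain ⟨CZ, hCZ, ctz⟩ := Pool.Agent.ANE.H72.ctz d
  have hb1 : b ≤ 1 ∨ 1 < b := le_or_gt _ _
  obtain ⟨x₀, hx₀⟩ : ∃ x₀ : ℝ, x₀ = min (1 / 2) ((b / (20 * CK)) ^ 4) := ⟨_, rfl⟩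
  have hx₀0 : 0 < x₀ := by
    rw [hx₀]
    exact lt_min (by norm_num) (by positivity)
  have hx₀1 : x₀ ≤ 1 / 2 := by rw [hx₀]; exact min_le_left _ _
  have hx₀2 : x₀ ≤ (b / (20 * CK)) ^ 4 := by rw [hx₀]; exact min_le_right _ _
  have hCK0 : 0 < CK := lt_of_lt_of_le one_pos hCK
  have hCZ0 : 0 < CZ := lt_of_lt_of_le one_pos hCZ
  refine ⟨min (min (x₀ / b) (b / 4)) (min (min 1 (b ^ 2 / CK)) (min (δ / 8)
    (δ * b ^ 3 / (8 * CZ ^ 2)))), lt_min (lt_min (by positivity) (by positivity))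
      (lt_min (lt_min one_pos (by positivity)) (lt_min (by positivity) (by positivity))),
    fun T hT hT1 => ?_⟩
  have hTa := hT1.trans (min_le_left _ _)
  have hTb := hT1.trans (min_le_right _ _)
  have hTc := hTb.trans (min_le_left _ _)
  have hTd := hTb.trans (min_le_right _ _)
  have hT2 : b * T ≤ x₀ := by
    have := hTa.trans (min_le_left _ _)
    rw [le_div_iff₀ hb] at this
    linarith
  have hT3 : T ≤ b / 4 := hTa.trans (min_le_right _ _)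
  have hT4 : T ≤ 1 := hTc.trans (min_le_left _ _)
  have hT5 : T * CK ≤ b ^ 2 := by
    have := hTc.trans (min_le_right _ _)
    rwa [le_div_iff₀ hCK0] at this
  have hT6 : T ≤ δ / 8 := hTd.trans (min_le_left _ _)
  have hT7 : T * (8 * CZ ^ 2) ≤ δ * b ^ 3 := by
    have := hTd.trans (min_le_right _ _)
    rwa [le_div_iff₀ (by positivity)] at this
  obtain ⟨x, hx⟩ : ∃ x : ℝ, x = b * T := ⟨_, rfl⟩
  have hx0 : 0 < x := by rw [hx]; positivity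
  have hxx : x ≤ x₀ := by rw [hx]; exact hT2
  have hx1 : x ≤ 1 := by linarith
  -- the derivative
  have hbound : CK * (1 + Real.log (1 / x)) * x ^ (-(1 / 2) : ℝ) ≤ 1 / (4 * T) := by
    have e1 : Real.log (1 / x) ≤ 4 * x ^ (-(1 / 4) : ℝ) := by
      have h1 : Real.log (1 / x) ≤ (1 / x) ^ (1 / 4 : ℝ) / (1 / 4) :=
        Real.log_le_rpow_div (by positivity) (by norm_num)
      have h2 : (1 / x) ^ (1 / 4 : ℝ) = x ^ (-(1 / 4) : ℝ) := by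
        rw [one_div, Real.inv_rpow hx0.le, Real.rpow_neg hx0.le]
      rw [h2] at h1
      linarith
    have e2 : 1 ≤ x ^ (-(1 / 4) : ℝ) :=
      Real.one_le_rpow_of_pos_of_le_one_of_nonpos hx0 hx1 (by norm_num)
    have e3 : x ^ (-(1 / 4) : ℝ) * x ^ (-(1 / 2) : ℝ) = x⁻¹ * x ^ (1 / 4 : ℝ) := by
      have h1 : x⁻¹ = x ^ (-1 : ℝ) := (Real.rpow_neg_one x).symm
      rw [h1, ← Real.rpow_add hx0, ← Real.rpow_add hx0]
      congr 1
      norm_num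
    have e4 : x ^ (1 / 4 : ℝ) ≤ b / (20 * CK) := by
      have h1 : x ^ (1 / 4 : ℝ) ≤ ((b / (20 * CK)) ^ 4) ^ (1 / 4 : ℝ) :=
        Real.rpow_le_rpow hx0.le (hxx.trans hx₀2) (by norm_num)
      have h2 : ((b / (20 * CK)) ^ 4) ^ (1 / 4 : ℝ) = b / (20 * CK) := by
        have h3 : (0 : ℝ) ≤ b / (20 * CK) := by positivity
        have h4 := Real.pow_rpow_inv_natCast h3 (n := 4) (by norm_num)
        have h5 : ((4 : ℕ) : ℝ)⁻¹ = (1 / 4 : ℝ) := by norm_num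
        rw [h5] at h4
        exact h4
      rwa [h2] at h1
    have e5 : 0 ≤ x ^ (-(1 / 2) : ℝ) := Real.rpow_nonneg hx0.le _
    calc CK * (1 + Real.log (1 / x)) * x ^ (-(1 / 2) : ℝ)
        ≤ CK * (5 * x ^ (-(1 / 4) : ℝ)) * x ^ (-(1 / 2) : ℝ) := by
          gcongr
          linarith
      _ = 5 * CK * (x ^ (-(1 / 4) : ℝ) * x ^ (-(1 / 2) : ℝ)) := by ring
      _ = 5 * CK * (x⁻¹ * x ^ (1 / 4 : ℝ)) := by rw [e3]
      _ ≤ 5 * CK * (x⁻¹ * (b / (20 * CK))) := by gcongr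
      _ = 1 / (4 * T) := by
          rw [hx]
          field_simp
          norm_num
  -- the torus is large
  have hMa : ∀ M : ℕ, (T ^ 4)⁻¹ ≤ (M : ℝ) → CK / x ^ 2 ≤ M := by
    intro M hM
    refine le_trans ?_ hM
    rw [div_le_iff₀ (by positivity), inv_mul_eq_div, le_div_iff₀ (by positivity), hx]
    have h1 : 0 ≤ CK * T := by positivity
    have h2 : T ^ 4 ≤ T ^ 3 := pow_le_pow_of_le_one hT.le hT4 (by norm_num)
    calc CK * T ^ 4 ≤ CK * T ^ 3 := by gcongr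
      _ = T * CK * T ^ 2 := by ring
      _ ≤ b ^ 2 * T ^ 2 := by gcongr
      _ = (b * T) ^ 2 := by ring
  have hMb : ∀ M : ℕ, (T ^ 4)⁻¹ ≤ (M : ℝ) → CZ / x ^ 2 * Real.exp (-(x * M / CZ)) ≤ δ / 8 := by
    intro M hM
    have h0 : 0 < (T ^ 4)⁻¹ := by positivity
    have hM0 : (0 : ℝ) < M := lt_of_lt_of_le h0 hM
    have h1 : Real.exp (-(x * M / CZ)) ≤ CZ / (x * M) := by
      rw [Real.exp_neg, inv_le_comm₀ (Real.exp_pos _) (by positivity), inv_div]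
      have h2 := Real.add_one_le_exp (x * M / CZ)
      linarith
    have h2 : 1 ≤ (M : ℝ) * T ^ 4 := by
      rw [inv_le_iff_one_le_mul₀ (by positivity)] at hM
      linarith
    calc CZ / x ^ 2 * Real.exp (-(x * M / CZ)) ≤ CZ / x ^ 2 * (CZ / (x * M)) := by gcongr
      _ = CZ ^ 2 / (x ^ 3 * M) := by
          field_simp
      _ ≤ δ / 8 := by
          rw [div_le_iff₀ (by positivity), hx]
          have h3 : δ * b ^ 3 * T ^ 3 * 1 ≤ δ * b ^ 3 * T ^ 3 * (M * T ^ 4) := by gcongr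
          have h4 : T * (8 * CZ ^ 2) * T ^ 3 ≤ δ * b ^ 3 * T ^ 3 := by gcongr
          have h5 : 8 * CZ ^ 2 * T ^ 4 ≤ δ * b ^ 3 * T ^ 3 * M * T ^ 4 := by
            calc 8 * CZ ^ 2 * T ^ 4 = T * (8 * CZ ^ 2) * T ^ 3 := by ring
              _ ≤ δ * b ^ 3 * T ^ 3 * 1 := by rw [mul_one]; exact h4
              _ ≤ δ * b ^ 3 * T ^ 3 * (M * T ^ 4) := h3
              _ = _ := by ring
          have h6 : 8 * CZ ^ 2 ≤ δ * b ^ 3 * T ^ 3 * M := le_of_mul_le_mul_right h5 (by positivity)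
          have h7 : (b * T) ^ 3 = b ^ 3 * T ^ 3 := mul_pow _ _ _
          rw [h7]
          linarith
  refine ⟨hT2.trans hx₀1, hT3, hT4, hT6, ?_⟩
  intro M _ hM
  rw [← hx]
  -- the torus `M`
  have hk : ∀ z : ℂ, x ≤ z.im → z.im ≤ 1 / 2 → ‖bh z (0 : Tor d M)‖ ≤ 1 / (4 * T) := by
    intro z hz1 hz2
    have hz0 : 0 < z.im := by linarith
    have hMz : CK / z.im ^ 2 ≤ M := by
      have h1 : CK / z.im ^ 2 ≤ CK / x ^ 2 := by gcongr
      exact h1.trans (hMa M hM)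
    have h1 := (khb M z 0 ⟨0, by omega⟩ hz0 hz2 hMz).2
    refine h1.trans (le_trans ?_ hbound)
    have h2 : ((0 : Tor d M) ⟨0, by omega⟩).valMinAbs = 0 := by simp
    rw [h2, Int.cast_zero, mul_zero, zero_div, Real.cos_zero, abs_one]
    have h3 : Real.sqrt (z.im / (z.im + 1)) ≤ Real.sqrt z.im := by
      refine Real.sqrt_le_sqrt ?_
      rw [div_le_iff₀ (by linarith)]
      nlinarith
    have h4 : Real.sqrt z.im / z.im = z.im ^ (-(1 / 2) : ℝ) := by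
      rw [Real.sqrt_eq_rpow, div_eq_mul_inv, ← Real.rpow_neg_one, ← Real.rpow_add hz0]
      norm_num
    have h5 : z.im ^ (-(1 / 2) : ℝ) ≤ x ^ (-(1 / 2) : ℝ) :=
      Real.rpow_le_rpow_of_nonpos hx0 hz1 (by norm_num)
    have h6 : Real.log (1 / z.im) ≤ Real.log (1 / x) :=
      Real.log_le_log (by positivity) (one_div_le_one_div_of_le hx0 hz1)
    have h7 : 0 ≤ Real.log (1 / z.im) := Real.log_nonneg (by rw [le_div_iff₀ hz0]; linarith)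
    have h8 : 0 ≤ z.im ^ (-(1 / 2) : ℝ) := Real.rpow_nonneg hz0.le _
    calc CK * (1 + Real.log (1 / z.im)) / z.im * Real.sqrt (z.im / (z.im + 1))
        ≤ CK * (1 + Real.log (1 / z.im)) / z.im * Real.sqrt z.im := by gcongr
      _ = CK * (1 + Real.log (1 / z.im)) * (Real.sqrt z.im / z.im) := by ring
      _ = CK * (1 + Real.log (1 / z.im)) * z.im ^ (-(1 / 2) : ℝ) := by rw [h4]
      _ ≤ CK * (1 + Real.log (1 / x)) * x ^ (-(1 / 2) : ℝ) := by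
          have h9 : 0 ≤ CK * (1 + Real.log (1 / x)) := by
            have : 0 ≤ 1 + Real.log (1 / x) := by linarith
            positivity
          exact mul_le_mul (by gcongr) h5 h8 h9
  refine ⟨fun z z' h1 h2 h3 h4 => lip (M := M) (by positivity) hx0 hk h1 h2 h3 h4, ?_⟩
  intro z hz1 hz2
  have h1 := ctz M (0 : Site d → ℝ) z.re z.im (by linarith) (by linarith)
  have h2 : (⟨z.re, z.im⟩ : ℂ) = z := Complex.eta z
  have h5 : zz z.im z.re = z := by apply Complex.ext <;> simp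
  rw [h2, h5] at h1
  refine h1.trans (le_trans ?_ (hMb M hM))
  have h3 : CZ / z.im ^ 2 ≤ CZ / x ^ 2 := by gcongr
  have h4 : Real.exp (-(z.im * M / CZ)) ≤ Real.exp (-(x * M / CZ)) := by
    refine Real.exp_le_exp.2 (neg_le_neg ?_)
    gcongr
  exact mul_le_mul h3 h4 (Real.exp_pos _).le (by positivity)

/-- the imaginary part of `T m` -/
theorem tim {T b : ℝ} (hT : 0 < T) (hb : 0 < b) (hT3 : T ≤ b / 4) {m : ℂ} (hm0 : b ≤ m.im)
    (hm : ‖m‖ ≤ 1 / b) : b * T ≤ T * m.im ∧ T * m.im ≤ 1 / 4 := by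
  have h1 : m.im ≤ 1 / b := (le_abs_self _).trans ((Complex.abs_im_le_norm _).trans hm)
  constructor
  · nlinarith
  · calc T * m.im ≤ b / 4 * (1 / b) := mul_le_mul hT3 h1 (hb.le.trans hm0) (by positivity)
      _ = 1 / 4 := by field_simp

/-- STM, with explicit thresholds: polynomial in `T` -/
theorem stmq (d : ℕ) (b δ : ℝ) (hd : 3 ≤ d) (hb : 0 < b) (hδ : 0 < δ) : ∃ T₀ : ℝ, 0 < T₀ ∧
    ∀ T : ℝ, 0 < T → T ≤ T₀ →
      ∀ (M M' : ℕ) [NeZero M] [NeZero M'] (E E' η η' : ℝ) (m m' : ℂ), (T ^ 4)⁻¹ ≤ M →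
        (T ^ 4)⁻¹ ≤ M' → |E - E'| ≤ T ^ 2 →
        0 < η → η ≤ T ^ 2 → 0 < η' → η' ≤ T ^ 2 →
        b ≤ m.im → ‖m‖ ≤ 1 / b → b ≤ m'.im → ‖m'‖ ≤ 1 / b →
        rs (0 : Tor d M → ℝ) (⟨E, η⟩ + (T : ℂ) * m) 0 0 = m →
        rs (0 : Tor d M' → ℝ) (⟨E', η'⟩ + (T : ℂ) * m') 0 0 = m' → ‖m - m'‖ ≤ δ := by
  obtain ⟨T₀, hT₀, h⟩ := base d b δ hd hb hδ
  refine ⟨min T₀ (1 / 2), lt_min hT₀ (by norm_num), ?_⟩
  intro T hT hT1 M M' _ _ E E' η η' m m' hM hM' hEE hη hη1 hη' hη1' hm hm1 hm' hm1' hfix hfix'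
  obtain ⟨hT2, hT3, hT4, hT6, h⟩ := h T hT (hT1.trans (min_le_left _ _))
  have hT8 : T ≤ 1 / 2 := hT1.trans (min_le_right _ _)
  have hTT : T ^ 2 ≤ 1 / 4 := by nlinarith
  have hTd : T ^ 2 ≤ δ * T / 8 := by nlinarith
  set ζ : ℂ := ⟨E, η⟩ + (T : ℂ) * m with hζ
  set ζ' : ℂ := ⟨E', η'⟩ + (T : ℂ) * m' with hζ'
  have him : ζ.im = η + T * m.im := by
    rw [hζ]
    simp
  have him' : ζ'.im = η' + T * m'.im := by
    rw [hζ']
    simp
  obtain ⟨i1, i2⟩ := tim hT hb hT3 hm hm1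
  obtain ⟨i3, i4⟩ := tim hT hb hT3 hm' hm1'
  have z1 : b * T ≤ ζ.im := by rw [him]; linarith
  have z2 : ζ.im ≤ 1 / 2 := by rw [him]; linarith
  have z3 : b * T ≤ ζ'.im := by rw [him']; linarith
  have z4 : ζ'.im ≤ 1 / 2 := by rw [him']; linarith
  have k1 := (h M hM).1 ζ ζ' z1 z2 z3 z4
  rw [hfix] at k1
  -- the distance of the parameters
  have k2 : ‖ζ - ζ'‖ ≤ 2 * (δ * T / 8) + T * ‖m - m'‖ := by
    have h1 : ζ - ζ' = (⟨E, η⟩ - ⟨E', η'⟩ : ℂ) + (T : ℂ) * (m - m') := by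
      rw [hζ, hζ']
      ring
    rw [h1]
    refine (norm_add_le _ _).trans ?_
    rw [norm_mul, Complex.norm_real, Real.norm_eq_abs, abs_of_pos hT]
    refine add_le_add ?_ le_rfl
    refine (Complex.norm_le_abs_re_add_abs_im _).trans ?_
    have h2 : |(⟨E, η⟩ - ⟨E', η'⟩ : ℂ).re| ≤ δ * T / 8 := by
      show |E - E'| ≤ _
      linarith
    have h3 : |(⟨E, η⟩ - ⟨E', η'⟩ : ℂ).im| ≤ δ * T / 8 := by
      show |η - η'| ≤ _
      rw [abs_le]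
      constructor <;> linarith
    linarith
  have k3 : ‖rs (0 : Tor d M → ℝ) ζ' 0 0 - m'‖ ≤ δ / 4 := by
    have h1 := (h M hM).2 ζ' z3 z4
    have h2 := (h M' hM').2 ζ' z3 z4
    rw [hfix'] at h2
    rw [norm_sub_rev] at h1
    have h3 := norm_add_le (rs (0 : Tor d M → ℝ) ζ' 0 0 - G (0 : Site d → ℝ) ζ'
      (del 0) 0) (G (0 : Site d → ℝ) ζ' (del 0) 0 - m')
    rw [sub_add_sub_cancel] at h3
    linarith
  have k4 := norm_add_le (m - rs (0 : Tor d M → ℝ) ζ' 0 0) (rs (0 : Tor d M → ℝ) ζ' 0 0 - m')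
  rw [sub_add_sub_cancel] at k4
  have k5 : 1 / (4 * T) * (2 * (δ * T / 8) + T * ‖m - m'‖) = δ / 16 + ‖m - m'‖ / 4 := by
    field_simp
    ring
  have k6 : 1 / (4 * T) * ‖ζ - ζ'‖ ≤ 1 / (4 * T) * (2 * (δ * T / 8) + T * ‖m - m'‖) := by gcongr
  have k7 := norm_nonneg (m - m')
  linarith

/-- the self energy of a torus nearly solves the equation of the lattice -/
theorem stg0 (d : ℕ) (b δ : ℝ) (hd : 3 ≤ d) (hb : 0 < b) (hδ : 0 < δ) : ∃ T₀ : ℝ, 0 < T₀ ∧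
    ∀ T : ℝ, 0 < T → T ≤ T₀ →
      ∀ (M : ℕ) [NeZero M] (E η η' : ℝ) (m : ℂ), (T ^ 4)⁻¹ ≤ M →
        0 < η → η ≤ T ^ 2 → 0 < η' → η' ≤ T ^ 2 →
        b ≤ m.im → ‖m‖ ≤ 1 / b →
        rs (0 : Tor d M → ℝ) (⟨E, η⟩ + (T : ℂ) * m) 0 0 = m →
        ‖m - G (0 : Site d → ℝ) (zz η' E + (T : ℂ) * m) (del 0) 0‖ ≤ δ := by
  obtain ⟨T₀, hT₀, h⟩ := base d b δ hd hb hδ
  refine ⟨min T₀ (1 / 2), lt_min hT₀ (by norm_num), ?_⟩
  intro T hT hT1 M _ E η η' m hM hη hη1 hη' hη1' hm hm1 hfix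
  obtain ⟨hT2, hT3, hT4, hT6, h⟩ := h T hT (hT1.trans (min_le_left _ _))
  have hT8 : T ≤ 1 / 2 := hT1.trans (min_le_right _ _)
  have hTT : T ^ 2 ≤ 1 / 4 := by nlinarith
  set ζ : ℂ := ⟨E, η⟩ + (T : ℂ) * m with hζ
  set ζ' : ℂ := zz η' E + (T : ℂ) * m with hζ'
  have him : ζ.im = η + T * m.im := by
    rw [hζ]
    simp
  have him' : ζ'.im = η' + T * m.im := by
    rw [hζ']
    simp [zz]
  obtain ⟨i1, i2⟩ := tim hT hb hT3 hm hm1
  have z1 : b * T ≤ ζ.im := by rw [him]; linarith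
  have z2 : ζ.im ≤ 1 / 2 := by rw [him]; linarith
  have z3 : b * T ≤ ζ'.im := by rw [him']; linarith
  have z4 : ζ'.im ≤ 1 / 2 := by rw [him']; linarith
  have k1 := (h M hM).1 ζ ζ' z1 z2 z3 z4
  rw [hfix] at k1
  have k2 : ‖ζ - ζ'‖ ≤ T ^ 2 := by
    have h1 : ζ - ζ' = ((η - η' : ℝ) : ℂ) * Complex.I := by
      rw [hζ, hζ']
      apply Complex.ext <;> simp [zz]
    rw [h1, norm_mul, Complex.norm_I, mul_one, Complex.norm_real, Real.norm_eq_abs, abs_le]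
    constructor <;> linarith
  have k3 := (h M hM).2 ζ' z3 z4
  rw [norm_sub_rev] at k3
  have k4 := norm_add_le (m - rs (0 : Tor d M → ℝ) ζ' 0 0)
    (rs (0 : Tor d M → ℝ) ζ' 0 0 - G (0 : Site d → ℝ) ζ' (del 0) 0)
  rw [sub_add_sub_cancel] at k4
  have k5 : 1 / (4 * T) * ‖ζ - ζ'‖ ≤ 1 / (4 * T) * T ^ 2 := by gcongr
  have k6 : 1 / (4 * T) * T ^ 2 = T / 4 := by field_simp
  linarith

end Pool.Agent.QDA.H34S
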