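import Pool.Agent.Helper16_QDA.Tail
import Pool.Agent.Helper22_QDA.Scb
import Pool.Agent.Helper22_QDU.All
import Pool.Agent.Helper28_ACX.Elim
import Pool.Agent.Helper34_QDA.StmQ
import Pool.Agent.Helper34_QDA.NumD
import Pool.Agent.Helper34_QDA.PhsN

/-!
# QDA, row PHS: from one environment to all small `η`

`OneEnv`: the protocol in one environment, for any family `Bd` of bad events. `phs_gen`: the choice of the
ratio of the clocks, the reference number `m₀`, the stage, the energy of the environment, the torus and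
the tiny absorption.
-/

set_option autoImplicit false

open MeasureTheory ProbabilityTheory Function Filter

open scoped BigOperators NNReal ENNReal Matrix InnerProductSpace Topology

noncomputable section

namespace Pool.Agent.QDA.H34P

open Pool.Agent.BED (Tor gau)
open Pool.Agent.AND2B (Env WL)
open Pool.Agent.ANP (gm)
open Pool.Agent.LE.QD (rs)
open Pool.Agent.ACX.CORE (Fields)
open Pool.Agent.ACX (H34.Num8)

open Classical in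
/-- the protocol in one environment, for the bad events `Bd` -/
def OneEnv (d : ℕ) (c C K δ ε : ℝ)
    (Bd : (μ : ℕ) → (Tor d (2 ^ μ) → ℝ) → ℝ → ℝ → ℂ → ℕ → ℕ → Tor d (2 ^ μ) → Prop) : Prop :=
  ∀ (a : ℝ) (V : AND2B.Env d) (δ₁ : ℝ) (π c' W : ℕ → ℝ),
      1 / 2 ≤ V.th → V.th < 1 → 0 < V.w → V.Sc → 1 ≤ V.N →
      Fields (AHH.Z d a AHH.es c C) V →
      H34.Num8 d V.th V.J V.β V.w V.N V.μ V.kk V.l V.r 1 (2 * K) π c' W →
      ∑ j ∈ Finset.range (V.G.N + 2), W j *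
        ∑ B ∈ ({B | V.G.bl j B = B} : Finset V.X), ANP.H72.QQ V.G.ch V.G.J (fun i => π i.1) j B ≤ δ₁ →
      0 ≤ δ₁ →
      3 * (V.w : ℝ) ^ (1 / 20 : ℝ) ≤ δ / 2 →
      ((V.cl (V.kk (V.N + 1)) : ℝ)) ^ (1 / 8 : ℝ) ≤ δ →
      2 * ((V.cl (V.kk (V.N + 1)) : ℝ)) ^ (AHH.ka V / 2) ≤ δ →
      3 * (V.w : ℝ) ^ (AHH.ka V / 4) ≤ 1 / 2 →
      0 < V.e₀ → V.e₀ ≤ δ * V.cl (V.kk (V.N + 1)) →
      ∀ m₀ : ℂ, c / 2 ≤ m₀.im → ‖m₀‖ ≤ 2 * C → ‖V.m - m₀‖ ≤ δ / 2 →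
      ∀ j R : ℕ, j + 1 ≤ V.μ → 1 ≤ R →
      K * V.cl (V.kk (V.N + 1)) * 4 ^ j ≤ c * (V.w : ℝ) ^ (8 * AHH.es - 1) / 2 →
      K * 2 ^ j ≤ (2 : ℝ) ^ V.μ →
      K * (8 * C ^ 3 / V.w) ≤ V.cl (V.kk (V.N + 1)) * (R : ℝ) ^ 2 →
      ∀ ρ₀ : ℝ, (∀ V₀ : V.X → ℝ, (∀ x, |V₀ x| ≤ ρ₀) → ∃ m₁ : V.X → ℂ,
        (AHH.Z d a AHH.es c C).HS V 0 0 ⟨V₀, fun _ => V.cl 0, m₁⟩ Finset.univ) →
      ∫⁻ U, ENNReal.ofReal (((Finset.univ.filter fun x : Tor d (2 ^ V.μ) =>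
          Bd V.μ U (V.E + V.cl (V.kk (V.N + 1)) * m₀.re) (V.cl (V.kk (V.N + 1)) * m₀.im) m₀
            (2 ^ j) R x).card : ℝ) / ((2 : ℝ) ^ V.μ) ^ d) ∂(gau d (2 ^ V.μ) V.w) ≤
        ENNReal.ofReal (ε + δ₁ + (gm (fun _ : V.X => 0)
          (fun _ => V.cl (V.kk (V.N + 1)))).real {V₀ | ∃ x, ρ₀ < |V₀ x|}) +
        gau d (2 ^ V.μ) V.w {U | ¬ WL V.E V.L U}

/-- a ratio close to one -/
theorem ratio (τ δ : ℝ) (hτ : 0 < τ) (hδ : 0 < δ) :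
    ∃ th : ℝ≥0, 1 / 2 ≤ th ∧ th < 1 ∧ 1 - τ ≤ (th : ℝ) ∧ 1 - δ ≤ (th : ℝ) := by
  have h1 : (0 : ℝ) ≤ max (1 / 2 : ℝ) (max (1 - τ) (1 - δ)) := le_max_of_le_left (by norm_num)
  refine ⟨⟨_, h1⟩, ?_, ?_, ?_, ?_⟩
  · rw [← NNReal.coe_le_coe]
    push_cast
    exact le_max_left _ _
  · rw [← NNReal.coe_lt_coe]
    push_cast
    exact max_lt (by norm_num) (max_lt (by linarith) (by linarith))
  · exact (le_max_left _ _).trans (le_max_right _ _)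
  · exact (le_max_right _ _).trans (le_max_right _ _)

open Classical in
theorem phs_gen (d : ℕ) (a p c C K δ₀ : ℝ) (hd : 3 ≤ d) (ha : 0 < a) (hp : 0 < p)
    (hc : 0 < c) (hc' : c ≤ 1 / 2) (hC : 1 ≤ C)
    (hst : ∀ (M : ℕ) [NeZero M] (E η T : ℝ), |E| ≤ 2 * d - a / 2 → 0 < η → η ≤ T → T ≤ c →
      C / T ^ 2 ≤ M → ∃ m ζ : ℂ, ANI.Start2 d M E η T AHH.es m ζ c C)
    (hK : 1 ≤ K) (hδ₀ : 0 < δ₀)
    (Bd : (μ : ℕ) → (Tor d (2 ^ μ) → ℝ) → ℝ → ℝ → ℂ → ℕ → ℕ → Tor d (2 ^ μ) → Prop)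
    (hone : OneEnv d c C K δ₀ (p / 4) Bd) (δ : ℝ) (hδ : 0 < δ) :
    ∃ w₀ P : ℝ, 0 < w₀ ∧ w₀ ≤ 1 ∧ 1 ≤ P ∧
    ∀ (w : ℝ≥0) (E η : ℝ) (r R : ℕ), 0 < w → (w : ℝ) ≤ w₀ → |E| ≤ 2 * d - a → 0 < η →
      η ≤ (w : ℝ) ^ P →
      8 * K * C ^ 4 * η * (r : ℝ) ^ 2 ≤ (w : ℝ) ^ (1 / 1000 - 1 : ℝ) →
      8 * K * C ^ 4 ≤ w * η * (R : ℝ) ^ 2 →
      ∃ (μ j M₀ : ℕ) (_ : NeZero M₀) (η' : ℝ) (m₀ : ℂ), 0 < η' ∧ |η - η'| ≤ δ * η' ∧
        η' ^ (-4 : ℝ) ≤ (2 : ℝ) ^ μ ∧ r ≤ 2 ^ j ∧ c ≤ m₀.im ∧ ‖m₀‖ ≤ C ∧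
        ((w : ℝ) ^ 4)⁻¹ ≤ M₀ ∧
        rs (0 : Tor d M₀ → ℝ) (⟨E, (w : ℝ) ^ 2⟩ + ((w : ℝ) : ℂ) * m₀) 0 0 = m₀ ∧
        ∫⁻ U, ENNReal.ofReal (((Finset.univ.filter fun x : Tor d (2 ^ μ) =>
          Bd μ U E η' m₀ (2 ^ j) R x).card : ℝ) / ((2 : ℝ) ^ μ) ^ d) ∂(gau d (2 ^ μ) w) ≤
        ENNReal.ofReal p := by
  have hC0 : 0 < C := by linarith
  have hK0 : 0 < K := by linarith
  obtain ⟨τ₀, k₁, hτ, hk, hF⟩ := QDU.fields_ex d (a / 2) c C hd (by positivity) hc hc' hC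
  obtain ⟨th, hth1, hth2, hth3, hth4⟩ := ratio τ₀ δ hτ hδ
  have hthr : (0 : ℝ) < th := by
    have : (1 / 2 : ℝ) ≤ th := by exact_mod_cast hth1
    linarith
  have hthh : (1 / 2 : ℝ) ≤ th := by exact_mod_cast hth1
  have hthr1 : (th : ℝ) < 1 := by exact_mod_cast hth2
  have hth0 : 0 < th := by exact_mod_cast hthr
  obtain ⟨C₁, α, J, P, hα, hP1, hscb⟩ := H22.scb d th (min k₁ 1) hth2 (lt_min hk one_pos)
  obtain ⟨β, w₁, hβ, hw₁, hF⟩ := hF th (min k₁ 1) C₁ α J hth2 (lt_min hk one_pos)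
    (min_le_left _ _) (by omega)
  obtain ⟨w₂, hw₂, hw₂1, hscb⟩ := hscb β hβ ((ACX.H34.A0 d C₁ α : ℕ) : ℝ)
  obtain ⟨w₃, hw₃, hw₃1, hnum⟩ := H34N.num8d d C₁ α 1 (2 * K) (p / 4) zero_le_one (by positivity)
    (by positivity)
  obtain ⟨w₄, hw₄, hw₄1, htail⟩ := H16.tail_w d (C₁ * (α + 1)) (p / 4) (by positivity)
  obtain ⟨w₅, hw₅, hstm⟩ := H34S.stmq d (min c (1 / C)) (δ₀ / 2) hd (by positivity) (by positivity)
  obtain ⟨w₆, hw₆, hw₆1, hsm⟩ := (sm (κ := 1 / (1000 * ((α : ℝ) + 1) ^ 2)) ha hc hC0 hK0 hδ₀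
    (by positivity)).ex
  refine ⟨min (min w₁ w₂) (min (min w₃ w₄) (min w₅ w₆)), P + 6, by positivity,
    (min_le_left _ _).trans ((min_le_right _ _).trans hw₂1), by
      have : (1 : ℝ) ≤ P := by exact_mod_cast hP1
      linarith, ?_⟩
  intro w E η r R hw hwle hE hη hηP hr hR
  have l1 : (w : ℝ) ≤ w₁ := hwle.trans ((min_le_left _ _).trans (min_le_left _ _))
  have l2 : (w : ℝ) ≤ w₂ := hwle.trans ((min_le_left _ _).trans (min_le_right _ _))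
  have l3 : (w : ℝ) ≤ w₃ :=
    hwle.trans ((min_le_right _ _).trans ((min_le_left _ _).trans (min_le_left _ _)))
  have l4 : (w : ℝ) ≤ w₄ :=
    hwle.trans ((min_le_right _ _).trans ((min_le_left _ _).trans (min_le_right _ _)))
  have l5 : (w : ℝ) ≤ w₅ :=
    hwle.trans ((min_le_right _ _).trans ((min_le_right _ _).trans (min_le_left _ _)))
  have l6 : (w : ℝ) ≤ w₆ :=
    hwle.trans ((min_le_right _ _).trans ((min_le_right _ _).trans (min_le_right _ _)))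
  clear hwle
  have hw0 : (0 : ℝ) < w := by exact_mod_cast hw
  have hS := hsm w hw0 l6
  have hw1 : (w : ℝ) ≤ 1 := l6.trans hw₆1
  have hwc : (w : ℝ) ≤ c := hS.n5.trans (pow_le_of_le_one hc.le (by linarith) (by norm_num))
  have hw2 : (w : ℝ) ^ 2 ≤ w := pow_le_of_le_one hw0.le hw1 (by norm_num)
  -- the reference number
  obtain ⟨M₀, hM₀⟩ := exists_nat_ge (max (C / (w : ℝ) ^ 2) (((w : ℝ) ^ 4)⁻¹))
  have hM₀1 : C / (w : ℝ) ^ 2 ≤ M₀ := (le_max_left _ _).trans hM₀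
  have hM₀2 : ((w : ℝ) ^ 4)⁻¹ ≤ M₀ := (le_max_right _ _).trans hM₀
  have hM₀0 : NeZero M₀ := by
    refine ⟨fun h => ?_⟩
    rw [h, Nat.cast_zero] at hM₀2
    have : 0 < ((w : ℝ) ^ 4)⁻¹ := by positivity
    linarith
  obtain ⟨m₀, ζ₀, hm₀⟩ := hst M₀ E ((w : ℝ) ^ 2) w (by linarith) (by positivity) hw2 hwc hM₀1
  have hfix₀ : rs (0 : Tor d M₀ → ℝ) (⟨E, (w : ℝ) ^ 2⟩ + ((w : ℝ) : ℂ) * m₀) 0 0 = m₀ := by
    rw [← hm₀.hz]
    exact hm₀.hm 0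
  obtain ⟨hmc, hmC⟩ := hm₀.hc
  have hmi : 0 < m₀.im := by linarith
  have hmiC : m₀.im ≤ C := (le_abs_self _).trans ((Complex.abs_im_le_norm _).trans hmC)
  have hmr : |m₀.re| ≤ C := (Complex.abs_re_le_norm _).trans hmC
  -- the stage
  have hPr : (1 : ℝ) ≤ P := by exact_mod_cast hP1
  have hx1 : η / (m₀.im * w) ≤ 1 := by
    rw [div_le_one (by positivity)]
    have h1 : (w : ℝ) ^ ((P : ℝ) + 6) ≤ (w : ℝ) ^ (2 : ℝ) :=
      Real.rpow_le_rpow_of_exponent_ge hw0 hw1 (by linarith)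
    have h2 : (w : ℝ) ^ (2 : ℝ) = w * w := by
      rw [← sq]
      norm_cast
    rw [h2] at h1
    have h3 : (w : ℝ) * w ≤ m₀.im * w := by
      have := hwc.trans hmc
      gcongr
    linarith
  obtain ⟨n, hn1, hn2⟩ := stg hthr hthr1 (x := η / (m₀.im * w)) (by positivity) hx1
  rw [lt_div_iff₀ (by positivity)] at hn1
  rw [div_le_iff₀ (by positivity)] at hn2
  obtain ⟨f, hf⟩ : ∃ f : ℝ≥0, f = AND2B.cl w th n := ⟨_, rfl⟩
  have hfr : (f : ℝ) = w * (th : ℝ) ^ n := by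
    rw [hf]
    unfold AND2B.cl
    push_cast
    rfl
  have hf0 : (0 : ℝ) < f := by
    rw [hfr]
    positivity
  have hf0' : 0 < f := by exact_mod_cast hf0
  have e1 : (th : ℝ) * (f * m₀.im) < η := by
    calc (th : ℝ) * (f * m₀.im) = th * (th : ℝ) ^ n * (m₀.im * w) := by
          rw [hfr]
          ring
      _ < η := hn1
  have e2 : η ≤ f * m₀.im := by
    calc η ≤ (th : ℝ) ^ n * (m₀.im * w) := hn2
      _ = f * m₀.im := by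
          rw [hfr]
          ring
  have e3 : (f : ℝ) * m₀.im ≤ 2 * η := by
    have h1 : 0 < (f : ℝ) * m₀.im := by positivity
    nlinarith
  have F := fk hS hc hc' hC hK hw0 hw1 (by linarith) hf0 hη hηP e3 e2 hmc hmiC
    (Nat.cast_nonneg r) hr hR
  -- the scales
  have hfP : (w : ℝ) * (th : ℝ) ^ n ≤ (w : ℝ) ^ P := by
    rw [← hfr]
    refine F.f1.trans ?_
    rw [← Real.rpow_natCast (w : ℝ) P]
    exact Real.rpow_le_rpow_of_exponent_ge hw0 hw1 (by linarith)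
  obtain ⟨N, μ, kk, l, rr, Kn, Dn, hN, hkn, hSc, hq⟩ := hscb th w n 1 hth1 le_rfl hw l2 hfP
    (by
      rw [← hfr]
      exact F.f10)
  obtain ⟨π, c', W, hN8, hsum⟩ := hnum J th (min k₁ 1) β w 1 N μ kk l rr Kn Dn hSc hw l3 hth1 hth2
    (by omega) (min_le_right _ _) hα hq
  have hsg : AND2B.sg w th kk (N + 1) = f := by
    unfold AND2B.sg
    rw [hkn, hf]
  have hmN : (f : ℝ) ^ (-5 : ℝ) ≤ 2 ^ μ := by
    have := hSc.mN
    rw [hsg] at this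
    exact this
  have hmU : (2 ^ μ : ℝ) ≤ (f : ℝ) ^ (-(C₁ * (α + 1))) := by
    have := hSc.mU
    rw [hsg] at this
    exact this
  -- the energy of the environment
  obtain ⟨EV, hEV⟩ : ∃ EV : ℝ, EV = E - f * m₀.re := ⟨_, rfl⟩
  have hEE : |EV - E| ≤ (w : ℝ) ^ 2 := by
    rw [hEV, show E - (f : ℝ) * m₀.re - E = -(f * m₀.re) by ring, abs_neg, abs_mul,
      abs_of_pos hf0]
    refine le_trans ?_ F.f4
    gcongr
  have hEV1 : |EV| < 2 * d - a / 2 := by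
    have h1 : |EV| ≤ |EV - E| + |E| := by
      have := abs_add_le (EV - E) E
      rwa [sub_add_cancel] at this
    have h2 := hS.n7
    linarith
  -- the ellipticity
  obtain ⟨L, hL, hWL⟩ := H16.wl_ex d (2 ^ μ) EV w hw (p := p / 4) (by positivity)
  -- the absorption
  obtain ⟨e₁, he₁, hFld⟩ := hF ⟨th, min k₁ 1, C₁, α, J, β, w, EV, 1, 0, 0, 1, N, μ, kk, l, rr, Kn,
    Dn, L, 0, 0, 0⟩ ⟨⟨hth1, hth2⟩, lt_min hk one_pos, by show 2 ≤ α; omega, hβ, hw, hEV1, one_pos, one_pos, hSc,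
      hL⟩ hth3 le_rfl rfl rfl rfl rfl le_rfl l1
  obtain ⟨e₀, he₀⟩ : ∃ e₀ : ℝ, e₀ = min e₁ (min ((w : ℝ) ^ 2) (δ₀ * f)) := ⟨_, rfl⟩
  have he0 : 0 < e₀ := by
    rw [he₀]
    positivity
  have he1 : e₀ ≤ e₁ := by rw [he₀]; exact min_le_left _ _
  have he2 : e₀ ≤ (w : ℝ) ^ 2 := by
    rw [he₀]
    exact (min_le_right _ _).trans (min_le_left _ _)
  have he3 : e₀ ≤ δ₀ * f := by
    rw [he₀]
    exact (min_le_right _ _).trans (min_le_right _ _)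
  have hlarge := ACX.H28.torus_large (C := C) hth0 hth2 hw hw1 hC0 hS.n6 hSc
  obtain ⟨m, ζ, hm⟩ := hst (2 ^ μ) EV e₀ w hEV1.le he0 (he2.trans hw2) hwc hlarge
  have hfix : rs (0 : Tor d (2 ^ μ) → ℝ) (⟨EV, e₀⟩ + ((w : ℝ) : ℂ) * m) 0 0 = m := by
    rw [← hm.hz]
    exact hm.hm 0
  have hb1 : 1 / min c (1 / C) ≥ C := by
    rw [ge_iff_le, le_div_iff₀ (by positivity)]
    calc C * min c (1 / C) ≤ C * (1 / C) := by
          have := min_le_right c (1 / C)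
          gcongr
      _ = 1 := by field_simp
  have hmm : ‖m - m₀‖ ≤ δ₀ / 2 := by
    refine hstm w hw0 l5 (2 ^ μ) M₀ EV E e₀ ((w : ℝ) ^ 2) m m₀ ?_ hM₀2 hEE he0 he2 (by positivity)
      le_rfl ((min_le_left _ _).trans hm.hc.1) (hm.hc.2.trans hb1) ((min_le_left _ _).trans hmc)
      (hmC.trans hb1) hfix hfix₀
    push_cast
    exact F.f6.trans hmN
  obtain ⟨hFields, hIni⟩ := hFld e₀ m ζ he0 he1
    ⟨⟨⟨hth1, hth2⟩, lt_min hk one_pos, by show 2 ≤ α; omega, hβ, hw, hEV1, one_pos, one_pos, hSc, hL⟩, he0, hm⟩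
  -- the radius
  obtain ⟨j, hj1, hj2⟩ := dya r
  have hj3 : K * (2 : ℝ) ^ j * 2 ≤ 2 ^ μ := by
    refine le_trans ?_ (F.f7.trans hmN)
    calc K * (2 : ℝ) ^ j * 2 ≤ K * (2 * (r + 1)) * 2 := by gcongr
      _ = 2 * K * (2 * (r + 1)) := by ring
  have hj4 : j + 1 ≤ μ := by
    have h1 : (2 : ℝ) ^ (j + 1) ≤ 2 ^ μ := by
      rw [pow_succ]
      refine le_trans ?_ hj3
      have h2 : (0 : ℝ) < 2 ^ j := by positivity
      nlinarith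
    exact (pow_le_pow_iff_right₀ (by norm_num : (1 : ℝ) < 2)).1 h1
  have hR1 : 1 ≤ R := by
    rcases Nat.eq_zero_or_pos R with h | h
    · exfalso
      rw [h] at hR
      have h1 : 0 < 8 * K * C ^ 4 := by positivity
      simp at hR
      linarith
    · exact h
  have key := hone (a / 2) ⟨th, min k₁ 1, C₁, α, J, β, w, EV, 1, 0, 0, 1, N, μ, kk, l, rr, Kn,
    Dn, L, e₀, m, ζ⟩ (p / 4) π c' W hth1 hth2 hw hSc (by show 1 ≤ N; omega) hFields hN8 hsum (by positivity)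
    hS.n1
    (by
      show ((AND2B.cl w th (kk (N + 1)) : ℝ≥0) : ℝ) ^ (1 / 8 : ℝ) ≤ δ₀
      rw [hkn, ← hf]
      exact (Real.rpow_le_rpow hf0.le F.f3 (by norm_num)).trans hS.n2)
    (by
      show 2 * ((AND2B.cl w th (kk (N + 1)) : ℝ≥0) : ℝ) ^
        (1 / (1000 * ((α : ℝ) + 1) ^ 2) / 2) ≤ δ₀
      rw [hkn, ← hf]
      refine le_trans ?_ hS.n3
      have := Real.rpow_le_rpow hf0.le F.f3
        (show (0 : ℝ) ≤ 1 / (1000 * ((α : ℝ) + 1) ^ 2) / 2 by positivity)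
      linarith)
    hS.n4 he0
    (by
      show e₀ ≤ δ₀ * ((AND2B.cl w th (kk (N + 1)) : ℝ≥0) : ℝ)
      rw [hkn, ← hf]
      exact he3)
    m₀ (by linarith) (by linarith) hmm j R hj4 hR1
    (by
      show K * ((AND2B.cl w th (kk (N + 1)) : ℝ≥0) : ℝ) * 4 ^ j ≤
        c * (w : ℝ) ^ (8 * AHH.es - 1) / 2
      rw [hkn, ← hf]
      refine le_trans ?_ F.f8
      have h1 : (4 : ℝ) ^ j = (2 ^ j) ^ 2 := by
        rw [← pow_mul, mul_comm j 2, pow_mul]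
        norm_num
      rw [h1]
      gcongr)
    (by
      show K * 2 ^ j ≤ (2 : ℝ) ^ μ
      have h1 : 0 < K * (2 : ℝ) ^ j := by positivity
      linarith)
    (by
      show K * (8 * C ^ 3 / w) ≤ ((AND2B.cl w th (kk (N + 1)) : ℝ≥0) : ℝ) * (R : ℝ) ^ 2
      rw [hkn, ← hf]
      exact F.f9)
    ((w : ℝ) ^ 2) (fun V₀ hV₀ => ⟨_, hIni V₀ hV₀⟩)
  refine ⟨μ, j, M₀, hM₀0, f * m₀.im, m₀, by positivity, ?_, F.f5.trans hmN, hj1, hmc, hmC, hM₀2,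
    hfix₀, ?_⟩
  · rw [abs_le]
    have h1 : 0 < (f : ℝ) * m₀.im := by positivity
    constructor
    · nlinarith
    · nlinarith
  · have hE2 : EV + (f : ℝ) * m₀.re = E := by
      rw [hEV]
      ring
    have key' : ∫⁻ U, ENNReal.ofReal (((Finset.univ.filter fun x : Tor d (2 ^ μ) =>
          Bd μ U (EV + ((AND2B.cl w th (kk (N + 1)) : ℝ≥0) : ℝ) * m₀.re)
            (((AND2B.cl w th (kk (N + 1)) : ℝ≥0) : ℝ) * m₀.im) m₀
            (2 ^ j) R x).card : ℝ) / ((2 : ℝ) ^ μ) ^ d) ∂(gau d (2 ^ μ) w) ≤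
        ENNReal.ofReal (p / 4 + p / 4 + (gm (fun _ : Tor d (2 ^ μ) => 0)
          (fun _ => AND2B.cl w th (kk (N + 1)))).real {V₀ | ∃ x, (w : ℝ) ^ 2 < |V₀ x|}) +
        gau d (2 ^ μ) w {U | ¬ WL EV L U} := key
    rw [hkn, ← hf, hE2] at key'
    refine key'.trans ?_
    have ht := htail w f μ hw l4 hf0' F.f2 hmU
    refine (add_le_add (ENNReal.ofReal_le_ofReal (q := 3 * p / 4) (by linarith)) hWL).trans ?_
    rw [← ENNReal.ofReal_add (by positivity) (by positivity)]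
    exact ENNReal.ofReal_le_ofReal (by linarith)

end Pool.Agent.QDA.H34P
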