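import Pool.Agent.Helper16_QDA.Phm
import Pool.Agent.Helper34_QDA.Phs
import Pool.Agent.Helper54_ANI.All

/-!
# QDA, row PHS in the M form: `PhmStmt` from `EdmStmt`
-/

set_option autoImplicit false

open MeasureTheory ProbabilityTheory Function Filter

open scoped BigOperators NNReal ENNReal Matrix InnerProductSpace Topology

noncomputable section

namespace Pool.Agent.QDA.H34P

open Pool.Agent.BED (Tor gau)

theorem badM_mono {d M : ℕ} [NeZero M] {U : Tor d M → ℝ} {E η : ℝ} (hη : 0 ≤ η) {m : ℂ}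
    {ε ε' : ℝ} {r r' R : ℕ} {x : Tor d M} (hε : ε' ≤ ε) (hr : r ≤ r')
    (h : BadM U E η m ε r R x) : BadM U E η m ε' r' R x := by
  rcases h with h | h | h
  · exact Or.inl (lt_of_le_of_lt hε h)
  · refine Or.inr (Or.inl (lt_of_le_of_lt hε (lt_of_lt_of_le h ?_)))
    refine mul_le_mul_of_nonneg_left (Finset.sum_le_sum fun y _ => ?_) hη
    split_ifs with h1 h2
    · exact le_rfl
    · omega
    · positivity
    · exact le_rfl
  · exact Or.inr (Or.inr (lt_of_le_of_lt hε h))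

open Classical in
/-- PHM -/
theorem phm (hE : EdmStmt) : PhmStmt := by
  intro d a p ε hd ha hp hε
  obtain ⟨c, C, hc, hc', hC, hst⟩ := ANI.H54.stbT d (a / 2) AHH.es hd (by positivity)
    (by norm_num [AHH.es]) (by norm_num [AHH.es])
  obtain ⟨K, δ₀, hK, hδ₀, hone⟩ := H16.phmE hE d c C (min ε (p / 4)) hd hc (by linarith) hC
    (by positivity)
  have hC0 : 0 < C := by linarith
  have hC4 : 1 ≤ C ^ 4 := one_le_pow₀ hC
  have hCC : C ≤ C ^ 4 := le_self_pow₀ hC (by norm_num)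
  have hK' : 1 ≤ 8 * K * C ^ 4 := by nlinarith
  have hKC : C ≤ 8 * K * C ^ 4 := by nlinarith
  refine ⟨8 * K * C ^ 4, hK', fun δ hδ => ?_⟩
  have hone' : OneEnv d c C K δ₀ (p / 4)
      (fun μ U E η m r R x => BadM U E η m (min ε (p / 4)) r R x) := by
    intro a V δ₁ π c' W b1 b2 b3 b4 b5 b6 b7 b8 b9 b10 b11 b12 b13 b14 b15 m₀ b16 b17 b18 j R b19
      b20 b21 b22 b23 ρ₀ b24
    refine (hone a V δ₁ π c' W b1 b2 b3 b4 b5 b6 b7 b8 b9 b10 b11 b12 b13 b14 b15 m₀ b16 b17 b18 j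
      R b19 b20 b21 b22 b23 ρ₀ b24).trans ?_
    refine add_le_add (ENNReal.ofReal_le_ofReal ?_) le_rfl
    have := min_le_right ε (p / 4)
    linarith
  obtain ⟨w₀, P, hw₀, hw₀1, hP, h⟩ := phs_gen d a p c C K δ₀ hd ha hp hc hc' hC hst hK hδ₀ _ hone'
    δ hδ
  obtain ⟨T₀, hT₀, hst0⟩ := H34S.stg0 d (min c (1 / C)) δ hd (by positivity) hδ
  refine ⟨min w₀ T₀, max P 2, lt_min hw₀ hT₀, (min_le_left _ _).trans hw₀1,
    hP.trans (le_max_left _ _), ?_⟩
  intro w E η r R hw hwle hE' hη hηP hr hR _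
  have hw0 : (0 : ℝ) < w := by exact_mod_cast hw
  have hw1 : (w : ℝ) ≤ 1 := hwle.trans ((min_le_left _ _).trans hw₀1)
  have hηP' : η ≤ (w : ℝ) ^ P :=
    hηP.trans (Real.rpow_le_rpow_of_exponent_ge hw0 hw1 (le_max_left _ _))
  have hη2 : η ≤ (w : ℝ) ^ 2 := by
    refine (hηP.trans (Real.rpow_le_rpow_of_exponent_ge hw0 hw1 (le_max_right _ _))).trans_eq ?_
    norm_cast
  obtain ⟨μ, j, M₀, hM₀, η', m₀, g1, g2, g3, g4, g5, g6, g7, g8, g9⟩ :=
    h w E η r R hw (hwle.trans (min_le_left _ _)) hE' hη hηP' hr hR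
  have hb1 : C ≤ 1 / min c (1 / C) := by
    rw [le_div_iff₀ (by positivity)]
    calc C * min c (1 / C) ≤ C * (1 / C) := by
          have := min_le_right c (1 / C)
          gcongr
      _ = 1 := by field_simp
  refine ⟨m₀, μ, η', g6.trans hKC, by linarith, ?_, g1, g2, g3, ?_⟩
  · exact hst0 w hw0 (hwle.trans (min_le_right _ _)) M₀ E ((w : ℝ) ^ 2) η m₀ g7 (by positivity)
      le_rfl hη hη2 ((min_le_left _ _).trans g5) (g6.trans hb1) g8
  · refine le_trans (lintegral_mono fun U => ENNReal.ofReal_le_ofReal ?_) g9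
    refine div_le_div_of_nonneg_right ?_ (by positivity)
    refine Nat.cast_le.2 (Finset.card_le_card fun x hx => ?_)
    rw [Finset.mem_filter] at hx ⊢
    exact ⟨hx.1, badM_mono g1.le (min_le_left _ _) g4 hx.2⟩

end Pool.Agent.QDA.H34P
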