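import Pool.Agent.QDA.StmtsZ
import Pool.Agent.Helper54_LQX.All
import Pool.Agent.Helper72_ANE.Ctz

/-!
# QDA, row STM: the self energy does not depend on the torus nor on the tiny absorption
-/

set_option autoImplicit false

open MeasureTheory ProbabilityTheory Function Filter

open scoped BigOperators NNReal ENNReal Matrix InnerProductSpace Topology

noncomputable section

namespace Pool.Agent.QDA.H34S

open Pool.Agent.Anderson hiding box mem_box card_box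
open Pool.Agent.Loc Pool.Agent.Mob Pool.Agent.Helper54.Bal
  Pool.Agent.Helper96.EXP Pool.Agent.BED
open Pool.Agent.LE Pool.Agent.LE.MN Pool.Agent.LE.CL Pool.Agent.LE.IR Pool.Agent.LE.QD
  Pool.Agent.LE.QF

section tor

variable {d M : ℕ} [NeZero M]

theorem rs00 {z : ℂ} (hz : 0 < z.im) : rs (0 : Tor d M → ℝ) z 0 0 =
    (∑ p : Tor d M, ((es p : ℂ) - z)⁻¹) / (M : ℂ) ^ d := by
  obtain ⟨-, -, -, -, -, -, -, -, -, -, r11, -⟩ :=
    Pool.Agent.LE.QD.H93.ralT d M (0 : Tor d M → ℝ) z hz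
  rw [r11]
  congr 1
  refine Finset.sum_congr rfl fun p _ => ?_
  simp [ec]

theorem der {z : ℂ} (hz : 0 < z.im) : HasDerivAt
    (fun z : ℂ => (∑ p : Tor d M, ((es p : ℂ) - z)⁻¹) / (M : ℂ) ^ d) (bh z (0 : Tor d M)) z := by
  unfold bh
  refine HasDerivAt.div_const ?_ _
  refine HasDerivAt.fun_sum fun p _ => ?_
  have hne : (es p : ℂ) - z ≠ 0 := by
    intro h
    have := congrArg Complex.im h
    simp at this
    linarith
  have h1 : HasDerivAt (fun z : ℂ => (es p : ℂ) - z) (-1) z := by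
    simpa using (hasDerivAt_id z).const_sub (es p : ℂ)
  have h2 := h1.inv hne
  have h3 : ((es p : ℂ) - z)⁻¹ * ((es (0 - p) : ℂ) - z)⁻¹ = -(-1 : ℂ) / ((es p : ℂ) - z) ^ 2 := by
    rw [zero_sub, Pool.Agent.LE.QF.H68.es_neg, neg_neg]
    field_simp
  rw [h3]
  exact h2

/-- the derivative is small -/
theorem lip {C y : ℝ} (hC : 0 ≤ C) (hy : 0 < y)
    (hk : ∀ z : ℂ, y ≤ z.im → z.im ≤ 1 / 2 → ‖bh z (0 : Tor d M)‖ ≤ C) {z z' : ℂ}
    (h1 : y ≤ z.im) (h2 : z.im ≤ 1 / 2) (h3 : y ≤ z'.im) (h4 : z'.im ≤ 1 / 2) :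
    ‖rs (0 : Tor d M → ℝ) z 0 0 - rs (0 : Tor d M → ℝ) z' 0 0‖ ≤ C * ‖z - z'‖ := by
  have hs : Convex ℝ {z : ℂ | y ≤ z.im ∧ z.im ≤ 1 / 2} := by
    have h5 : {z : ℂ | y ≤ z.im ∧ z.im ≤ 1 / 2} = Complex.imLm ⁻¹' (Set.Icc y (1 / 2)) := by
      ext z
      rfl
    rw [h5]
    exact (convex_Icc _ _).linear_preimage _
  rw [rs00 (by linarith), rs00 (by linarith)]
  exact Convex.norm_image_sub_le_of_norm_hasDerivWithin_le
    (f := fun z : ℂ => (∑ p : Tor d M, ((es p : ℂ) - z)⁻¹) / (M : ℂ) ^ d)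
    (f' := fun z => bh z (0 : Tor d M)) (C := C) (s := {z : ℂ | y ≤ z.im ∧ z.im ≤ 1 / 2})
    (x := z') (y := z) (fun x hx => (der (lt_of_lt_of_le hy hx.1)).hasDerivWithinAt)
    (fun x hx => hk x hx.1 hx.2) hs ⟨h3, h4⟩ ⟨h1, h2⟩

end tor

/-- STM -/
theorem stm : StmStmt := by
  intro d a b δ hd ha hb hδ
  obtain ⟨CK, hCK, khb⟩ := Pool.Agent.LE.QX.H54.khbT d hd
  obtain ⟨CZ, hCZ, ctz⟩ := Pool.Agent.ANE.H72.ctz d
  have hb1 : b ≤ 1 ∨ 1 < b := le_or_gt _ _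
  obtain ⟨x₀, hx₀⟩ : ∃ x₀ : ℝ, x₀ = min (1 / 2) ((b / (20 * CK)) ^ 4) := ⟨_, rfl⟩
  have hx₀0 : 0 < x₀ := by
    rw [hx₀]
    exact lt_min (by norm_num) (by positivity)
  have hx₀1 : x₀ ≤ 1 / 2 := by rw [hx₀]; exact min_le_left _ _
  have hx₀2 : x₀ ≤ (b / (20 * CK)) ^ 4 := by rw [hx₀]; exact min_le_right _ _
  refine ⟨min (x₀ / b) (b / 4), lt_min (by positivity) (by positivity), fun T hT hT1 => ?_⟩
  have hT2 : b * T ≤ x₀ := by
    have := hT1.trans (min_le_left _ _)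
    rw [le_div_iff₀ hb] at this
    linarith
  have hT3 : T ≤ b / 4 := hT1.trans (min_le_right _ _)
  obtain ⟨x, hx⟩ : ∃ x : ℝ, x = b * T := ⟨_, rfl⟩
  have hx0 : 0 < x := by rw [hx]; positivity
  have hxx : x ≤ x₀ := by rw [hx]; exact hT2
  have hx1 : x ≤ 1 := by linarith
  -- the derivative
  have hbound : CK * (1 + Real.log (1 / x)) * x ^ (-(1 / 2) : ℝ) ≤ 1 / (4 * T) := by
    have e1 : Real.log (1 / x) ≤ 4 * x ^ (-(1 / 4) : ℝ) := by
      have h1 : Real.log (1 / x) ≤ (1 / x) ^ (1 / 4 : ℝ) / (1 / 4) :=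
        Real.log_le_rpow_div (by positivity) (by norm_num)
      have h2 : (1 / x) ^ (1 / 4 : ℝ) = x ^ (-(1 / 4) : ℝ) := by
        rw [one_div, Real.inv_rpow hx0.le, Real.rpow_neg hx0.le]
      rw [h2] at h1
      linarith
    have e2 : 1 ≤ x ^ (-(1 / 4) : ℝ) :=
      Real.one_le_rpow_of_pos_of_le_one_of_nonpos hx0 hx1 (by norm_num)
    have e3 : x ^ (-(1 / 4) : ℝ) * x ^ (-(1 / 2) : ℝ) = x⁻¹ * x ^ (1 / 4 : ℝ) := by
      have h1 : x⁻¹ = x ^ (-1 : ℝ) := (Real.rpow_neg_one x).symm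
      rw [h1, ← Real.rpow_add hx0, ← Real.rpow_add hx0]
      congr 1
      norm_num
    have e4 : x ^ (1 / 4 : ℝ) ≤ b / (20 * CK) := by
      have h1 : x ^ (1 / 4 : ℝ) ≤ ((b / (20 * CK)) ^ 4) ^ (1 / 4 : ℝ) :=
        Real.rpow_le_rpow hx0.le (hxx.trans hx₀2) (by norm_num)
      have h2 : ((b / (20 * CK)) ^ 4) ^ (1 / 4 : ℝ) = b / (20 * CK) := by
        have h3 : (0 : ℝ) ≤ b / (20 * CK) := by positivity
        have h4 := Real.pow_rpow_inv_natCast h3 (n := 4) (by norm_num)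
        have h5 : ((4 : ℕ) : ℝ)⁻¹ = (1 / 4 : ℝ) := by norm_num
        rw [h5] at h4
        exact h4
      rwa [h2] at h1
    have e5 : 0 ≤ x ^ (-(1 / 2) : ℝ) := Real.rpow_nonneg hx0.le _
    calc CK * (1 + Real.log (1 / x)) * x ^ (-(1 / 2) : ℝ)
        ≤ CK * (5 * x ^ (-(1 / 4) : ℝ)) * x ^ (-(1 / 2) : ℝ) := by
          gcongr
          linarith
      _ = 5 * CK * (x ^ (-(1 / 4) : ℝ) * x ^ (-(1 / 2) : ℝ)) := by ring
      _ = 5 * CK * (x⁻¹ * x ^ (1 / 4 : ℝ)) := by rw [e3]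
      _ ≤ 5 * CK * (x⁻¹ * (b / (20 * CK))) := by gcongr
      _ = 1 / (4 * T) := by
          rw [hx]
          field_simp
          norm_num
  -- the error of the torus
  have hlim : Tendsto (fun M : ℕ => CZ / x ^ 2 * Real.exp (-(x * M / CZ))) atTop (𝓝 0) := by
    have h1 : Tendsto (fun M : ℕ => x * (M : ℝ) / CZ) atTop atTop := by
      have h2 : (fun M : ℕ => x * (M : ℝ) / CZ) = fun M : ℕ => (x / CZ) * (M : ℝ) := by
        funext M
        ring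
      rw [h2]
      exact Tendsto.const_mul_atTop (by positivity) tendsto_natCast_atTop_atTop
    have h3 := (Real.tendsto_exp_neg_atTop_nhds_zero.comp h1).const_mul (CZ / x ^ 2)
    rw [mul_zero] at h3
    exact h3
  obtain ⟨M₂, hM₂⟩ := eventually_atTop.1 (hlim.eventually (ge_mem_nhds (show (0 : ℝ) < δ / 8 by
    positivity)))
  obtain ⟨M₃, hM₃⟩ := exists_nat_ge (CK / x ^ 2)
  refine ⟨min (δ * T / 8) (b * T / 4), max M₂ M₃, lt_min (by positivity) (by positivity), ?_⟩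
  intro M M' _ _ E E' η η' m m' hM hM' hE hE' hEE hη hη1 hη' hη1' hm hm1 hm' hm1' hfix hfix'
  have he1 : min (δ * T / 8) (b * T / 4) ≤ δ * T / 8 := min_le_left _ _
  have he2 : min (δ * T / 8) (b * T / 4) ≤ 1 / 8 := by
    refine (min_le_right _ _).trans ?_
    have : b * T ≤ 1 / 2 := hT2.trans hx₀1
    linarith
  set ζ : ℂ := ⟨E, η⟩ + (T : ℂ) * m with hζ
  set ζ' : ℂ := ⟨E', η'⟩ + (T : ℂ) * m' with hζ'
  have him : ζ.im = η + T * m.im := by
    rw [hζ]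
    simp
  have him' : ζ'.im = η' + T * m'.im := by
    rw [hζ']
    simp
  have hTm : ∀ m : ℂ, b ≤ m.im → ‖m‖ ≤ 1 / b → x ≤ T * m.im ∧ T * m.im ≤ 1 / 4 := by
    intro m hm0 hm
    have h1 : m.im ≤ 1 / b := (le_abs_self _).trans ((Complex.abs_im_le_norm _).trans hm)
    constructor
    · rw [hx]
      nlinarith
    · calc T * m.im ≤ b / 4 * (1 / b) := mul_le_mul hT3 h1 (hb.le.trans hm0) (by positivity)
        _ = 1 / 4 := by field_simp
  obtain ⟨i1, i2⟩ := hTm m hm hm1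
  obtain ⟨i3, i4⟩ := hTm m' hm' hm1'
  have z1 : x ≤ ζ.im := by rw [him]; linarith
  have z2 : ζ.im ≤ 1 / 2 := by rw [him]; linarith
  have z3 : x ≤ ζ'.im := by rw [him']; linarith
  have z4 : ζ'.im ≤ 1 / 2 := by rw [him']; linarith
  -- the torus `M`
  have hk : ∀ z : ℂ, x ≤ z.im → z.im ≤ 1 / 2 → ‖bh z (0 : Tor d M)‖ ≤ 1 / (4 * T) := by
    intro z hz1 hz2
    have hz0 : 0 < z.im := by linarith
    have hMz : CK / z.im ^ 2 ≤ M := by
      have h1 : CK / z.im ^ 2 ≤ CK / x ^ 2 := by gcongr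
      have h2 : (M₃ : ℝ) ≤ M := by exact_mod_cast (le_max_right _ _).trans hM
      linarith
    have h1 := (khb M z 0 ⟨0, by omega⟩ hz0 hz2 hMz).2
    refine h1.trans (le_trans ?_ hbound)
    have h2 : ((0 : Tor d M) ⟨0, by omega⟩).valMinAbs = 0 := by simp
    rw [h2, Int.cast_zero, mul_zero, zero_div, Real.cos_zero, abs_one]
    have h3 : Real.sqrt (z.im / (z.im + 1)) ≤ Real.sqrt z.im := by
      refine Real.sqrt_le_sqrt ?_
      rw [div_le_iff₀ (by linarith)]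
      nlinarith
    have h4 : Real.sqrt z.im / z.im = z.im ^ (-(1 / 2) : ℝ) := by
      rw [Real.sqrt_eq_rpow, div_eq_mul_inv, ← Real.rpow_neg_one, ← Real.rpow_add hz0]
      norm_num
    have h5 : z.im ^ (-(1 / 2) : ℝ) ≤ x ^ (-(1 / 2) : ℝ) :=
      Real.rpow_le_rpow_of_nonpos hx0 hz1 (by norm_num)
    have h6 : Real.log (1 / z.im) ≤ Real.log (1 / x) :=
      Real.log_le_log (by positivity) (one_div_le_one_div_of_le hx0 hz1)
    have h7 : 0 ≤ Real.log (1 / z.im) := Real.log_nonneg (by rw [le_div_iff₀ hz0]; linarith)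
    have h8 : 0 ≤ z.im ^ (-(1 / 2) : ℝ) := Real.rpow_nonneg hz0.le _
    calc CK * (1 + Real.log (1 / z.im)) / z.im * Real.sqrt (z.im / (z.im + 1))
        ≤ CK * (1 + Real.log (1 / z.im)) / z.im * Real.sqrt z.im := by gcongr
      _ = CK * (1 + Real.log (1 / z.im)) * (Real.sqrt z.im / z.im) := by ring
      _ = CK * (1 + Real.log (1 / z.im)) * z.im ^ (-(1 / 2) : ℝ) := by rw [h4]
      _ ≤ CK * (1 + Real.log (1 / x)) * x ^ (-(1 / 2) : ℝ) := by
          have h9 : 0 ≤ CK * (1 + Real.log (1 / x)) := by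
            have : 0 ≤ 1 + Real.log (1 / x) := by linarith
            positivity
          exact mul_le_mul (by gcongr) h5 h8 h9
  have k1 := lip (M := M) (by positivity) hx0 hk z1 z2 z3 z4
  rw [hfix] at k1
  -- the distance of the parameters
  have k2 : ‖ζ - ζ'‖ ≤ 2 * (δ * T / 8) + T * ‖m - m'‖ := by
    have h1 : ζ - ζ' = (⟨E, η⟩ - ⟨E', η'⟩ : ℂ) + (T : ℂ) * (m - m') := by
      rw [hζ, hζ']
      ring
    rw [h1]
    refine (norm_add_le _ _).trans ?_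
    rw [norm_mul, Complex.norm_real, Real.norm_eq_abs, abs_of_pos hT]
    refine add_le_add ?_ le_rfl
    refine (Complex.norm_le_abs_re_add_abs_im _).trans ?_
    have h2 : |(⟨E, η⟩ - ⟨E', η'⟩ : ℂ).re| ≤ δ * T / 8 := by
      show |E - E'| ≤ _
      linarith
    have h3 : |(⟨E, η⟩ - ⟨E', η'⟩ : ℂ).im| ≤ δ * T / 8 := by
      show |η - η'| ≤ _
      rw [abs_le]
      constructor <;> linarith
    linarith
  -- the other torus
  have hzz : ∀ {M : ℕ} [NeZero M], max M₂ M₃ ≤ M →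
      ‖G (0 : Site d → ℝ) (zz ζ'.im ζ'.re) (del 0) 0 - rs (0 : Tor d M → ℝ) ζ' 0 0‖ ≤ δ / 8 := by
    intro M _ hM
    have h1 := ctz M (0 : Site d → ℝ) ζ'.re ζ'.im (by linarith) (by linarith)
    have h2 : (⟨ζ'.re, ζ'.im⟩ : ℂ) = ζ' := Complex.eta ζ'
    rw [h2] at h1
    refine h1.trans (le_trans ?_ (hM₂ M ((le_max_left _ _).trans hM)))
    have h3 : CZ / ζ'.im ^ 2 ≤ CZ / x ^ 2 := by gcongr
    have h4 : Real.exp (-(ζ'.im * M / CZ)) ≤ Real.exp (-(x * M / CZ)) := by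
      refine Real.exp_le_exp.2 (neg_le_neg ?_)
      gcongr
    exact mul_le_mul h3 h4 (Real.exp_pos _).le (by positivity)
  have k3 : ‖rs (0 : Tor d M → ℝ) ζ' 0 0 - m'‖ ≤ δ / 4 := by
    have h1 := hzz hM
    have h2 := hzz hM'
    rw [hfix'] at h2
    rw [norm_sub_rev] at h1
    have h3 := norm_add_le (rs (0 : Tor d M → ℝ) ζ' 0 0 - G (0 : Site d → ℝ) (zz ζ'.im ζ'.re)
      (del 0) 0) (G (0 : Site d → ℝ) (zz ζ'.im ζ'.re) (del 0) 0 - m')
    rw [sub_add_sub_cancel] at h3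
    linarith
  have k4 := norm_add_le (m - rs (0 : Tor d M → ℝ) ζ' 0 0) (rs (0 : Tor d M → ℝ) ζ' 0 0 - m')
  rw [sub_add_sub_cancel] at k4
  have k5 : 1 / (4 * T) * (2 * (δ * T / 8) + T * ‖m - m'‖) = δ / 16 + ‖m - m'‖ / 4 := by
    field_simp
    ring
  have k6 : 1 / (4 * T) * ‖ζ - ζ'‖ ≤ 1 / (4 * T) * (2 * (δ * T / 8) + T * ‖m - m'‖) := by gcongr
  have k7 := norm_nonneg (m - m')
  linarith

end Pool.Agent.QDA.H34S
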